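import Pool.Agent.Q183.LE.Ex

namespace Pool.Agent.Q183.LE

open Matrix Set
open scoped ContDiff

variable {n : ℕ}

/-- The weights of the one-parameter group. -/
noncomputable def wt (n : ℕ) (i : Fin n) : ℝ :=
  (if i.val = 0 then 1 else 0) + (if i.val = 1 then -2 else 0) + (if i.val + 1 = n then 1 else 0)

theorem wt_sum (hn : 3 ≤ n) : ∑ i, wt n i = 0 := by
  unfold wt
  rw [Finset.sum_add_distrib, Finset.sum_add_distrib]
  have h1 : ∑ i : Fin n, (if i.val = 0 then (1 : ℝ) else 0) = 1 := by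
    rw [Finset.sum_eq_single (⟨0, by omega⟩ : Fin n)]
    · simp
    · intro b _ hb
      rw [if_neg]
      intro h
      exact hb (Fin.ext h)
    · simp
  have h2 : ∑ i : Fin n, (if i.val = 1 then (-2 : ℝ) else 0) = -2 := by
    rw [Finset.sum_eq_single (⟨1, by omega⟩ : Fin n)]
    · simp
    · intro b _ hb
      rw [if_neg]
      intro h
      exact hb (Fin.ext h)
    · simp
  have h3 : ∑ i : Fin n, (if i.val + 1 = n then (1 : ℝ) else 0) = 1 := by
    rw [Finset.sum_eq_single (⟨n - 1, by omega⟩ : Fin n)]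
    · have : n - 1 + 1 = n := by omega
      simp [this]
    · intro b _ hb
      rw [if_neg]
      intro h
      exact hb (Fin.ext (by simp; omega))
    · simp
  rw [h1, h2, h3]
  norm_num

/-- The one-parameter group. -/
noncomputable def cc (n : ℕ) (s : ℝ) : Mat n := diagonal (fun i => Real.exp (s * wt n i))

theorem cc_mul (s t : ℝ) : cc n s * cc n t = cc n (s + t) := by
  unfold cc
  rw [diagonal_mul_diagonal]
  congr 1
  funext i
  rw [← Real.exp_add]
  ring_nf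

theorem cc_zero : cc n 0 = 1 := by
  unfold cc
  simp

theorem cc_det (hn : 3 ≤ n) (s : ℝ) : (cc n s).det = 1 := by
  unfold cc
  rw [det_diagonal, ← Real.exp_sum, ← Finset.mul_sum, wt_sum hn]
  simp

theorem cc_transpose (s : ℝ) : (cc n s)ᵀ = cc n s := by
  unfold cc
  rw [diagonal_transpose]

/-- Skew matrices. -/
def KK (x : Pr n → ℝ) : Mat n := fun i j =>
  if h : i < j then x ⟨(i, j), h⟩ else if h : j < i then -x ⟨(j, i), h⟩ else 0

theorem KK_transpose (x : Pr n → ℝ) : (KK x)ᵀ = -KK x := by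
  ext i j
  show KK x j i = -KK x i j
  unfold KK
  rcases lt_trichotomy i j with h | h | h
  · simp [h, not_lt.mpr h.le]
  · subst h
    simp
  · simp [h, not_lt.mpr h.le]

theorem det_one_sub_skew {K : Mat n} (hK : Kᵀ = -K) : (1 - K).det ≠ 0 := by
  intro h0
  obtain ⟨v, hv, hv0⟩ := exists_mulVec_eq_zero_iff.mpr h0
  have h1 : K *ᵥ v = v := by
    rw [sub_mulVec, one_mulVec] at hv0
    exact (sub_eq_zero.mp hv0).symm
  have h2 : v ⬝ᵥ (K *ᵥ v) = -(v ⬝ᵥ (K *ᵥ v)) := by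
    conv_lhs => rw [dotProduct_comm, ← vecMul_transpose, ← dotProduct_mulVec, hK, neg_mulVec,
      dotProduct_neg]
  rw [h1] at h2
  have h3 : v ⬝ᵥ v = 0 := by linarith
  exact hv (dotProduct_self_eq_zero.mp h3)

/-- The Cayley transform. -/
noncomputable def kap (x : Pr n → ℝ) : Mat n := (1 + KK x) * (1 - KK x)⁻¹

theorem sub_tr (x : Pr n → ℝ) : (1 - KK x)ᵀ = 1 + KK x := by
  rw [transpose_sub, transpose_one, KK_transpose, sub_neg_eq_add]

theorem det_sub (x : Pr n → ℝ) : (1 - KK x).det ≠ 0 := det_one_sub_skew (KK_transpose x)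

theorem det_add (x : Pr n → ℝ) : (1 + KK x).det ≠ 0 := by
  rw [← sub_tr, det_transpose]
  exact det_sub x

theorem comm_pm (x : Pr n → ℝ) : (1 - KK x) * (1 + KK x) = (1 + KK x) * (1 - KK x) := by
  noncomm_ring

theorem kap_orth (x : Pr n → ℝ) : (kap x)ᵀ * kap x = 1 := by
  have h1 : IsUnit (1 - KK x).det := (det_sub x).isUnit
  have h2 : IsUnit (1 + KK x).det := (det_add x).isUnit
  unfold kap
  rw [transpose_mul, transpose_nonsing_inv, sub_tr]
  have h3 : (1 + KK x)ᵀ = 1 - KK x := by rw [← sub_tr, transpose_transpose]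
  rw [h3]
  calc (1 + KK x)⁻¹ * (1 - KK x) * ((1 + KK x) * (1 - KK x)⁻¹)
      = (1 + KK x)⁻¹ * ((1 - KK x) * (1 + KK x)) * (1 - KK x)⁻¹ := by
        simp only [Matrix.mul_assoc]
    _ = (1 + KK x)⁻¹ * (1 + KK x) * ((1 - KK x) * (1 - KK x)⁻¹) := by
        rw [comm_pm]
        simp only [Matrix.mul_assoc]
    _ = 1 := by rw [nonsing_inv_mul _ h2, mul_nonsing_inv _ h1, Matrix.one_mul]

theorem kap_det (x : Pr n → ℝ) : (kap x).det = 1 := by
  unfold kap
  rw [det_mul, det_nonsing_inv, Ring.inverse_eq_inv', ← sub_tr, det_transpose]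
  exact mul_inv_cancel₀ (det_sub x)

theorem kap_add (x : Pr n → ℝ) : kap x + 1 = (2 : ℝ) • (1 - KK x)⁻¹ := by
  have h1 : IsUnit (1 - KK x).det := (det_sub x).isUnit
  have h2 : kap x + 1 = ((1 + KK x) + (1 - KK x)) * (1 - KK x)⁻¹ := by
    rw [Matrix.add_mul, mul_nonsing_inv _ h1]
    rfl
  rw [h2]
  have h3 : (1 + KK x) + (1 - KK x) = (2 : ℝ) • (1 : Mat n) := by
    rw [two_smul]
    abel
  rw [h3, Matrix.smul_mul, Matrix.one_mul]

theorem kap_sub (x : Pr n → ℝ) : kap x - 1 = (2 : ℝ) • (KK x * (1 - KK x)⁻¹) := by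
  have h1 : IsUnit (1 - KK x).det := (det_sub x).isUnit
  have h2 : kap x - 1 = ((1 + KK x) - (1 - KK x)) * (1 - KK x)⁻¹ := by
    rw [Matrix.sub_mul, mul_nonsing_inv _ h1]
    rfl
  rw [h2]
  have h3 : (1 + KK x) - (1 - KK x) = (2 : ℝ) • KK x := by
    rw [two_smul]
    abel
  rw [h3, Matrix.smul_mul]

theorem kap_add_det (x : Pr n → ℝ) : (kap x + 1).det ≠ 0 := by
  rw [kap_add, det_smul]
  refine mul_ne_zero (pow_ne_zero _ two_ne_zero) ?_
  rw [det_nonsing_inv, Ring.inverse_eq_inv']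
  exact inv_ne_zero (det_sub x)

theorem kap_back (x : Pr n → ℝ) : (kap x + 1)⁻¹ * (kap x - 1) = KK x := by
  have h1 : IsUnit (1 - KK x).det := (det_sub x).isUnit
  have h2 : IsUnit (kap x + 1).det := (kap_add_det x).isUnit
  have h3 : kap x - 1 = (kap x + 1) * KK x := by
    rw [kap_sub, kap_add, Matrix.smul_mul]
    congr 1
    have h4 : KK x * (1 - KK x) = (1 - KK x) * KK x := by noncomm_ring
    calc KK x * (1 - KK x)⁻¹ = (1 - KK x)⁻¹ * (1 - KK x) * (KK x * (1 - KK x)⁻¹) := by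
          rw [nonsing_inv_mul _ h1, Matrix.one_mul]
      _ = (1 - KK x)⁻¹ * ((1 - KK x) * KK x) * (1 - KK x)⁻¹ := by simp only [Matrix.mul_assoc]
      _ = (1 - KK x)⁻¹ * (KK x * (1 - KK x)) * (1 - KK x)⁻¹ := by rw [h4]
      _ = (1 - KK x)⁻¹ * KK x * ((1 - KK x) * (1 - KK x)⁻¹) := by simp only [Matrix.mul_assoc]
      _ = (1 - KK x)⁻¹ * KK x := by rw [mul_nonsing_inv _ h1, Matrix.mul_one]
  rw [h3, ← Matrix.mul_assoc, nonsing_inv_mul _ h2, Matrix.one_mul]

/-- The parametrisation of the third submanifold. -/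
noncomputable def phi3 (u : ℝ × (Pr n → ℝ)) : Mat n := cc n u.1 * kap u.2

/-- The inverse. -/
noncomputable def psi3 (hn : 3 ≤ n) (A : Fin n → Fin n → ℝ) : ℝ × (Pr n → ℝ) :=
  let s : ℝ := Real.log (((of A) * (of A)ᵀ) ⟨0, by omega⟩ ⟨0, by omega⟩) / 2
  (s, fun p => ((cc n (-s) * of A + 1)⁻¹ * (cc n (-s) * of A - 1)) p.1.1 p.1.2)

theorem kap_orth' (x : Pr n → ℝ) : kap x * (kap x)ᵀ = 1 := mul_eq_one_comm.mp (kap_orth x)

theorem phi3_sq (u : ℝ × (Pr n → ℝ)) : phi3 u * (phi3 u)ᵀ = cc n (u.1 + u.1) := by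
  unfold phi3
  rw [transpose_mul, cc_transpose]
  calc cc n u.1 * kap u.2 * ((kap u.2)ᵀ * cc n u.1)
      = cc n u.1 * (kap u.2 * (kap u.2)ᵀ) * cc n u.1 := by simp only [Matrix.mul_assoc]
    _ = cc n (u.1 + u.1) := by rw [kap_orth', Matrix.mul_one, cc_mul]

theorem wt_zero (hn : 3 ≤ n) : wt n ⟨0, by omega⟩ = 1 := by
  have : ¬ (0 + 1 = n) := by omega
  simp [wt]
  omega

theorem wt_last (hn : 3 ≤ n) : wt n ⟨n - 1, by omega⟩ = 1 := by
  have h1 : ¬ (n - 1 = 0) := by omega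
  have h2 : ¬ (n - 1 = 1) := by omega
  have h3 : n - 1 + 1 = n := by omega
  simp [wt, h1, h2, h3]

theorem phi3_log (hn : 3 ≤ n) (u : ℝ × (Pr n → ℝ)) :
    Real.log ((phi3 u * (phi3 u)ᵀ) ⟨0, by omega⟩ ⟨0, by omega⟩) / 2 = u.1 := by
  rw [phi3_sq]
  unfold cc
  rw [diagonal_apply_eq, Real.log_exp, wt_zero hn]
  ring

theorem phi3_cc (u : ℝ × (Pr n → ℝ)) : cc n (-u.1) * phi3 u = kap u.2 := by
  unfold phi3
  rw [← Matrix.mul_assoc, cc_mul, neg_add_cancel, cc_zero, Matrix.one_mul]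

theorem psi3_phi3 (hn : 3 ≤ n) (u : ℝ × (Pr n → ℝ)) : psi3 hn (phi3 u) = u := by
  have h1 : (psi3 hn (phi3 u)).1 = u.1 := phi3_log hn u
  refine Prod.ext h1 ?_
  have h2 : (psi3 hn (phi3 u)).2 = fun p : Pr n =>
      ((cc n (-(psi3 hn (phi3 u)).1) * phi3 u + 1)⁻¹ *
        (cc n (-(psi3 hn (phi3 u)).1) * phi3 u - 1)) p.1.1 p.1.2 := rfl
  rw [h2, h1, phi3_cc, kap_back]
  funext p
  have := p.2
  simp [KK, this]

section Smooth

variable {X : Type*} [NormedAddCommGroup X] [NormedSpace ℝ X]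

theorem smoothAt_cc {f : X → ℝ} {x : X} (hf : ContDiffAt ℝ ∞ f x) :
    SmoothAt (fun y => cc n (f y)) x := by
  intro i j
  unfold cc
  by_cases h : i = j
  · subst h
    simp only [diagonal_apply_eq]
    exact Real.contDiff_exp.contDiffAt.comp x (hf.mul contDiffAt_const)
  · simp only [diagonal_apply_ne _ h]
    exact contDiffAt_const

theorem smoothAt_KK {f : X → (Pr n → ℝ)} {x : X} (hf : ContDiffAt ℝ ∞ f x) :
    SmoothAt (fun y => KK (f y)) x := by
  intro i j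
  unfold KK
  by_cases h : i < j
  · simp only [h, dif_pos]
    exact contDiffAt_pi.mp hf (⟨(i, j), h⟩ : Pr n)
  · by_cases h' : j < i
    · simp only [h, h', dif_neg, not_false_eq_true, dif_pos]
      exact (contDiffAt_pi.mp hf (⟨(j, i), h'⟩ : Pr n)).neg
    · simp only [h, h', dif_neg, not_false_eq_true]
      exact contDiffAt_const

theorem smoothAt_kap {f : X → (Pr n → ℝ)} {x : X} (hf : ContDiffAt ℝ ∞ f x) :
    SmoothAt (fun y => kap (f y)) x := by
  unfold kap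
  exact ((smoothAt_const 1 x).add (smoothAt_KK hf)).mul
    (((smoothAt_const 1 x).sub (smoothAt_KK hf)).inv (det_sub _))

end Smooth

theorem isSubmanifold_three (hn : 3 ≤ n) :
    IsSubmanifold n (1 + Fintype.card (Pr n)) (range (phi3 : ℝ × (Pr n → ℝ) → Mat n)) := by
  refine isSubmanifold_range (by simp) _ ?_ (psi3 hn) ?_ (psi3_phi3 hn) ?_
  · intro u
    exact (smoothAt_cc contDiffAt_fst).mul (smoothAt_kap contDiffAt_snd)
  · intro u
    have hid : SmoothAt (n := n) (fun A : Fin n → Fin n → ℝ => (of A : Mat n)) (phi3 u) := by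
      intro i j
      exact contDiffAt_pi.mp (contDiffAt_pi.mp contDiffAt_id i) j
    have hs : ContDiffAt ℝ ∞ (fun A : Fin n → Fin n → ℝ =>
        Real.log (((of A) * (of A)ᵀ) ⟨0, by omega⟩ ⟨0, by omega⟩) / 2) (phi3 u) := by
      refine ContDiffAt.div_const (ContDiffAt.log ((hid.mul hid.transpose) _ _) ?_) 2
      show (phi3 u * (phi3 u)ᵀ) _ _ ≠ 0
      rw [phi3_sq]
      unfold cc
      rw [diagonal_apply_eq]
      exact Real.exp_ne_zero _
    refine ContDiffAt.prodMk hs ?_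
    rw [contDiffAt_pi]
    intro p
    have hB : SmoothAt (n := n) (fun A : Fin n → Fin n → ℝ => cc n (-(Real.log (((of A) * (of A)ᵀ)
        ⟨0, by omega⟩ ⟨0, by omega⟩) / 2)) * of A) (phi3 u) := (smoothAt_cc hs.neg).mul hid
    have hval : cc n (-(Real.log (((of (phi3 u)) * (of (phi3 u))ᵀ)
        ⟨0, by omega⟩ ⟨0, by omega⟩) / 2)) * of (phi3 u) = kap u.2 := by
      have h1 := phi3_log hn u
      show cc n (-(Real.log ((phi3 u * (phi3 u)ᵀ)
        ⟨0, by omega⟩ ⟨0, by omega⟩) / 2)) * phi3 u = kap u.2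
      rw [h1, phi3_cc]
    refine (((hB.add (smoothAt_const 1 _)).inv ?_).mul (hB.sub (smoothAt_const 1 _))) _ _
    rw [hval]
    exact kap_add_det _
  · intro u
    unfold phi3
    rw [det_mul, cc_det hn, kap_det, one_mul]

theorem entry_le {R : Mat n} (hR : Rᵀ * R = 1) (j : Fin n) : R j j ≤ 1 := by
  have h1 : (Rᵀ * R) j j = 1 := by rw [hR, one_apply_eq]
  rw [mul_apply] at h1
  have h2 : R j j ^ 2 ≤ ∑ i, R i j ^ 2 :=
    Finset.single_le_sum (f := fun i => R i j ^ 2) (fun i _ => sq_nonneg _) (Finset.mem_univ j)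
  have h3 : ∑ i, R i j ^ 2 = 1 := by
    rw [← h1]
    refine Finset.sum_congr rfl fun i _ => ?_
    rw [transpose_apply, sq]
  nlinarith [sq_nonneg (R j j), sq_nonneg (R j j - 1)]

theorem conj_low {L : Mat n} (hL : Low L) (s : ℝ) : Low (cc n (-s) * L * cc n s) := by
  unfold cc
  constructor
  · intro i j hij
    rw [mul_diagonal, diagonal_mul, hL.1 i j hij]
    ring
  · intro i
    rw [mul_diagonal, diagonal_mul, hL.2 i, mul_one, ← Real.exp_add]
    ring_nf
    simp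

theorem conj_upp {L : Mat n} (hL : Upp L) (s : ℝ) : Upp (cc n (-s) * L * cc n s) := by
  unfold cc
  constructor
  · intro i j hij
    rw [mul_diagonal, diagonal_mul, hL.1 i j hij]
    ring
  · intro i
    rw [mul_diagonal, diagonal_mul, hL.2 i, mul_one, ← Real.exp_add]
    ring_nf
    simp

theorem LV_zero (hn : 3 ≤ n) {L V : Mat n} (hL : Low L) (hV : Upp V) :
    (L * V) ⟨0, by omega⟩ ⟨0, by omega⟩ = 1 := by
  rw [mul_apply, Finset.sum_eq_single ⟨0, by omega⟩, hL.2, hV.2, mul_one]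
  · intro b _ hb
    rw [hL.1, zero_mul]
    exact lt_of_le_of_ne (Fin.mk_le_of_le_val (Nat.zero_le _)) (Ne.symm hb)
  · simp

theorem VL_last (hn : 3 ≤ n) {L V : Mat n} (hL : Low L) (hV : Upp V) :
    (V * L) ⟨n - 1, by omega⟩ ⟨n - 1, by omega⟩ = 1 := by
  rw [mul_apply, Finset.sum_eq_single ⟨n - 1, by omega⟩, hL.2, hV.2, mul_one]
  · intro b _ hb
    rw [hV.1, zero_mul]
    refine lt_of_le_of_ne ?_ hb
    rw [Fin.le_def]
    have := b.2
    simp
    omega
  · simp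

theorem tpp_three (hn : 3 ≤ n) :
    TPP {A : Mat n | Upp A} {A : Mat n | Low A} (range (phi3 : ℝ × (Pr n → ℝ) → Mat n)) := by
  rintro s ⟨x, hx, x', hx', hs⟩ t ⟨y, hy, y', hy', ht⟩ u ⟨_, ⟨z, rfl⟩, _, ⟨z', rfl⟩, hu⟩ h
  have hS : Upp s := by
    rw [hs]
    exact Upp.mul hx (Upp.inv hx')
  have hT : Low t := by
    rw [ht]
    exact Low.mul hy (Low.inv hy')
  have hSu : IsUnit s.det := by rw [hS.det]; exact isUnit_one
  have hTu : IsUnit t.det := by rw [hT.det]; exact isUnit_one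
  have hinv : (phi3 z')⁻¹ = (kap z'.2)ᵀ * cc n (-z'.1) := by
    apply inv_eq_left_inv
    unfold phi3
    calc (kap z'.2)ᵀ * cc n (-z'.1) * (cc n z'.1 * kap z'.2)
        = (kap z'.2)ᵀ * (cc n (-z'.1) * cc n z'.1) * kap z'.2 := by simp only [Matrix.mul_assoc]
      _ = 1 := by rw [cc_mul, neg_add_cancel, cc_zero, Matrix.mul_one, kap_orth]
  -- the orthogonal matrix
  obtain ⟨R, hRdef⟩ : ∃ R : Mat n, R = kap z.2 * (kap z'.2)ᵀ := ⟨_, rfl⟩
  have hR1 : Rᵀ * R = 1 := by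
    rw [hRdef, transpose_mul, transpose_transpose]
    calc kap z'.2 * (kap z.2)ᵀ * (kap z.2 * (kap z'.2)ᵀ)
        = kap z'.2 * ((kap z.2)ᵀ * kap z.2) * (kap z'.2)ᵀ := by simp only [Matrix.mul_assoc]
      _ = 1 := by rw [kap_orth, Matrix.mul_one, kap_orth']
  have hR2 : R * Rᵀ = 1 := mul_eq_one_comm.mp hR1
  have huR : u = cc n z.1 * R * cc n (-z'.1) := by
    rw [hu, hinv, hRdef]
    unfold phi3
    simp only [Matrix.mul_assoc]
  have hLV : u = t⁻¹ * s⁻¹ := by
    calc u = t⁻¹ * (s⁻¹ * s) * t * u := by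
            rw [nonsing_inv_mul _ hSu, Matrix.mul_one, nonsing_inv_mul _ hTu, Matrix.one_mul]
      _ = t⁻¹ * s⁻¹ * (s * t * u) := by simp only [Matrix.mul_assoc]
      _ = t⁻¹ * s⁻¹ := by rw [h, Matrix.mul_one]
  have hRe : R = cc n (-z.1) * (t⁻¹ * s⁻¹) * cc n z'.1 := by
    rw [← hLV, huR]
    calc R = (cc n (-z.1) * cc n z.1) * R * (cc n (-z'.1) * cc n z'.1) := by
            rw [cc_mul, cc_mul, neg_add_cancel, neg_add_cancel, cc_zero,
              Matrix.one_mul, Matrix.mul_one]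
      _ = _ := by simp only [Matrix.mul_assoc]
  have hRt : Rᵀ = cc n (-z'.1) * (s * t) * cc n z.1 := by
    have h1 : (cc n (-z'.1) * (s * t) * cc n z.1) * R = 1 := by
      rw [hRe]
      calc cc n (-z'.1) * (s * t) * cc n z.1 * (cc n (-z.1) * (t⁻¹ * s⁻¹) * cc n z'.1)
          = cc n (-z'.1) * (s * t) * (cc n z.1 * cc n (-z.1)) * (t⁻¹ * s⁻¹) * cc n z'.1 := by
            simp only [Matrix.mul_assoc]
        _ = cc n (-z'.1) * (s * (t * t⁻¹) * s⁻¹) * cc n z'.1 := by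
            rw [cc_mul, add_neg_cancel, cc_zero, Matrix.mul_one]
            simp only [Matrix.mul_assoc]
        _ = 1 := by
            rw [mul_nonsing_inv _ hTu, Matrix.mul_one, mul_nonsing_inv _ hSu, Matrix.mul_one,
              cc_mul, neg_add_cancel, cc_zero]
    calc Rᵀ = (cc n (-z'.1) * (s * t) * cc n z.1 * R) * Rᵀ := by rw [h1, Matrix.one_mul]
      _ = (cc n (-z'.1) * (s * t) * cc n z.1) * (R * Rᵀ) := by simp only [Matrix.mul_assoc]
      _ = _ := by rw [hR2, Matrix.mul_one]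
  -- equality of the parameters
  have e1 : Real.exp (z'.1 - z.1) ≤ 1 := by
    have h1 := entry_le hR1 ⟨0, by omega⟩
    rw [hRe] at h1
    unfold cc at h1
    rw [mul_diagonal, diagonal_mul, LV_zero hn hT.inv hS.inv, wt_zero hn, mul_one, mul_one,
      mul_one, ← Real.exp_add] at h1
    rwa [show z'.1 - z.1 = -z.1 + z'.1 by ring]
  have e2 : Real.exp (z.1 - z'.1) ≤ 1 := by
    have h1 := entry_le (R := Rᵀ) (by rw [transpose_transpose]; exact hR2) ⟨n - 1, by omega⟩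
    rw [hRt] at h1
    unfold cc at h1
    rw [mul_diagonal, diagonal_mul, VL_last hn hT hS, wt_last hn, mul_one, mul_one,
      mul_one, ← Real.exp_add] at h1
    rwa [show z.1 - z'.1 = -z'.1 + z.1 by ring]
  have e3 : z'.1 = z.1 := by
    have h1 := Real.exp_le_one_iff.mp e1
    have h2 := Real.exp_le_one_iff.mp e2
    linarith
  rw [e3] at hRe
  have hprod : R = (cc n (-z.1) * t⁻¹ * cc n z.1) * (cc n (-z.1) * s⁻¹ * cc n z.1) := by
    rw [hRe]
    calc cc n (-z.1) * (t⁻¹ * s⁻¹) * cc n z.1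
        = cc n (-z.1) * t⁻¹ * (cc n z.1 * cc n (-z.1)) * s⁻¹ * cc n z.1 := by
          rw [cc_mul, add_neg_cancel, cc_zero, Matrix.mul_one]
          simp only [Matrix.mul_assoc]
      _ = _ := by simp only [Matrix.mul_assoc]
  obtain ⟨hL1, hV1⟩ := orth_lu (conj_low hT.inv z.1) (conj_upp hS.inv z.1)
    (by rw [← hprod]; exact hR1)
  have back : ∀ A : Mat n, cc n (-z.1) * A * cc n z.1 = 1 → A = 1 := by
    intro A hA
    calc A = (cc n z.1 * cc n (-z.1)) * A * (cc n z.1 * cc n (-z.1)) := by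
            rw [cc_mul, add_neg_cancel, cc_zero, Matrix.one_mul, Matrix.mul_one]
      _ = cc n z.1 * (cc n (-z.1) * A * cc n z.1) * cc n (-z.1) := by
            simp only [Matrix.mul_assoc]
      _ = 1 := by rw [hA, Matrix.mul_one, cc_mul, add_neg_cancel, cc_zero]
  have ht1 : t⁻¹ = 1 := back _ hL1
  have hs1 : s⁻¹ = 1 := back _ hV1
  have ht2 : t = 1 := by
    have := mul_nonsing_inv t hTu
    rwa [ht1, Matrix.mul_one] at this
  have hs2 : s = 1 := by
    have := mul_nonsing_inv s hSu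
    rwa [hs1, Matrix.mul_one] at this
  refine ⟨hs2, ht2, ?_⟩
  rw [hLV, ht1, hs1, Matrix.mul_one]

theorem realised_three (hn : 3 ≤ n) :
    Realised n (Fintype.card (Pr n)) (Fintype.card (Pr n)) (1 + Fintype.card (Pr n)) :=
  ⟨_, _, _, isSubmanifold_upp, isSubmanifold_low, isSubmanifold_three hn, tpp_three hn⟩

theorem denom_three (hn : 3 ≤ n) :
    denom n (Fintype.card (Pr n)) (Fintype.card (Pr n)) (1 + Fintype.card (Pr n)) = 1 / 3 := by
  have h1 : ((2 * Fintype.card (Pr n) : ℕ) : ℝ) = ((n * (n - 1) : ℕ) : ℝ) := by rw [card_Pr]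
  have h2 : ((n - 1 : ℕ) : ℝ) = (n : ℝ) - 1 := by
    rw [Nat.cast_sub (by omega)]
    simp
  push_cast [h2] at h1
  unfold denom
  push_cast
  linarith

theorem lieExponent_lt_top_of_three (hn : 3 ≤ n) : lieExponent n < ⊤ := by
  unfold lieExponent
  refine lt_of_le_of_lt (iInf_le_of_le (Fintype.card (Pr n)) (iInf_le_of_le (Fintype.card (Pr n))
    (iInf_le_of_le (1 + Fintype.card (Pr n)) (iInf_le_of_le ⟨realised_three hn, ?_⟩ le_rfl)))) ?_
  · rw [denom_three hn]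
    norm_num
  · exact ENNReal.ofReal_lt_top

end Pool.Agent.Q183.LE
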