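import Mathlib

namespace Pool.Agent.Q183.LE

open Matrix Set
open scoped ContDiff ENNReal

/-- Real `n × n` matrices. -/
abbrev Mat (n : ℕ) := Matrix (Fin n) (Fin n) ℝ

/-- `φ` restricted to the open set `U` of the normed space `E` is a smooth embedding into the space
of matrices: its entries are smooth, its derivative is injective, and it has a continuous inverse. -/
structure IsChart {n : ℕ} {E : Type} [NormedAddCommGroup E] [NormedSpace ℝ E] (U : Set E)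
    (φ : E → Mat n) : Prop where
  isOpen : IsOpen U
  smooth : ∀ i j, ContDiffOn ℝ ∞ (fun u => φ u i j) U
  immersion : ∀ u ∈ U, ∀ v, (∀ i j, fderiv ℝ (fun u => φ u i j) u v = 0) → v = 0
  inverse : ∃ ψ : Mat n → E, ContinuousOn ψ (φ '' U) ∧ ∀ u ∈ U, ψ (φ u) = u

/-- `M` is a (nonempty, smooth, embedded) submanifold of dimension `d` of `SL(n, ℝ)`. -/
def IsSubmanifold (n d : ℕ) (M : Set (Mat n)) : Prop :=
  M.Nonempty ∧ (∀ A ∈ M, A.det = 1) ∧ ∀ A ∈ M, ∃ (U : Set (EuclideanSpace ℝ (Fin d)))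
    (φ : EuclideanSpace ℝ (Fin d) → Mat n), IsChart U φ ∧ A ∈ φ '' U ∧
      ∃ W : Set (Mat n), IsOpen W ∧ φ '' U = M ∩ W

/-- `Q(X)`. -/
def Q {n : ℕ} (X : Set (Mat n)) : Set (Mat n) := {q | ∃ x ∈ X, ∃ x' ∈ X, q = x * x'⁻¹}

/-- The triple product property. -/
def TPP {n : ℕ} (S T U : Set (Mat n)) : Prop :=
  ∀ s ∈ Q S, ∀ t ∈ Q T, ∀ u ∈ Q U, s * t * u = 1 → s = 1 ∧ t = 1 ∧ u = 1

/-- There are submanifolds of `SL(n, ℝ)` of dimensions `d₁, d₂, d₃` with the triple product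
property. -/
def Realised (n d₁ d₂ d₃ : ℕ) : Prop :=
  ∃ M₁ M₂ M₃ : Set (Mat n), IsSubmanifold n d₁ M₁ ∧ IsSubmanifold n d₂ M₂ ∧
    IsSubmanifold n d₃ M₃ ∧ TPP M₁ M₂ M₃

/-- The denominator `(d₁ + d₂ + d₃) / 3 - (dim G - r) / 2`, `dim G = n² - 1`, `r = n - 1`. -/
noncomputable def denom (n d₁ d₂ d₃ : ℕ) : ℝ :=
  ((d₁ : ℝ) + d₂ + d₃) / 3 - (((n : ℝ) ^ 2 - 1) - (n - 1)) / 2

/-- The Lie exponent of `SL(n, ℝ)`, an element of `[0, ∞]`. -/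
noncomputable def lieExponent (n : ℕ) : ℝ≥0∞ :=
  ⨅ (d₁ : ℕ) (d₂ : ℕ) (d₃ : ℕ) (_ : Realised n d₁ d₂ d₃ ∧ 0 < denom n d₁ d₂ d₃),
    ENNReal.ofReal (((n : ℝ) - 1) / denom n d₁ d₂ d₃)

end Pool.Agent.Q183.LE
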