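import Pool.Agent.Q183.LE.Tri

namespace Pool.Agent.Q183.LE

open Matrix Set
open scoped ContDiff

variable {n : ℕ}

section Smooth

variable {X : Type*} [NormedAddCommGroup X] [NormedSpace ℝ X]

/-- All entries are smooth at `x`. -/
def SmoothAt (f : X → Mat n) (x : X) : Prop := ∀ i j, ContDiffAt ℝ ∞ (fun y => f y i j) x

theorem SmoothAt.mul {f g : X → Mat n} {x : X} (hf : SmoothAt f x) (hg : SmoothAt g x) :
    SmoothAt (fun y => f y * g y) x := by
  intro i j
  simp only [mul_apply]
  exact ContDiffAt.sum fun k _ => (hf i k).mul (hg k j)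

theorem SmoothAt.det {f : X → Mat n} {x : X} (hf : SmoothAt f x) :
    ContDiffAt ℝ ∞ (fun y => (f y).det) x := by
  simp only [det_apply']
  exact ContDiffAt.sum fun σ _ => contDiffAt_const.mul (contDiffAt_prod fun i _ => hf _ _)

theorem SmoothAt.transpose {f : X → Mat n} {x : X} (hf : SmoothAt f x) :
    SmoothAt (fun y => (f y)ᵀ) x := fun i j => hf j i

theorem SmoothAt.add {f g : X → Mat n} {x : X} (hf : SmoothAt f x) (hg : SmoothAt g x) :
    SmoothAt (fun y => f y + g y) x := fun i j => (hf i j).add (hg i j)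

theorem SmoothAt.sub {f g : X → Mat n} {x : X} (hf : SmoothAt f x) (hg : SmoothAt g x) :
    SmoothAt (fun y => f y - g y) x := fun i j => (hf i j).sub (hg i j)

theorem smoothAt_const (A : Mat n) (x : X) : SmoothAt (fun _ : X => A) x :=
  fun _ _ => contDiffAt_const

theorem SmoothAt.adjugate {f : X → Mat n} {x : X} (hf : SmoothAt f x) :
    SmoothAt (fun y => (f y).adjugate) x := by
  intro i j
  simp only [adjugate_apply]
  apply SmoothAt.det
  intro k l
  by_cases hk : k = j
  · subst hk
    simp only [updateRow_self]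
    exact contDiffAt_const
  · simp only [updateRow_ne hk]
    exact hf k l

theorem SmoothAt.inv {f : X → Mat n} {x : X} (hf : SmoothAt f x) (h0 : (f x).det ≠ 0) :
    SmoothAt (fun y => (f y)⁻¹) x := by
  intro i j
  have h1 : (fun y => ((f y)⁻¹) i j) = fun y => ((f y).det)⁻¹ * (f y).adjugate i j := by
    funext y
    rw [Matrix.inv_def, Ring.inverse_eq_inv', Matrix.smul_apply, smul_eq_mul]
  rw [h1]
  exact (hf.det.inv h0).mul (hf.adjugate i j)

end Smooth

theorem isSubmanifold_range {E : Type} [NormedAddCommGroup E] [NormedSpace ℝ E]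
    [FiniteDimensional ℝ E] {d : ℕ} (hd : Module.finrank ℝ E = d) (φ : E → Mat n)
    (hs : ∀ u, SmoothAt φ u) (ψ : (Fin n → Fin n → ℝ) → E)
    (hψ : ∀ u, ContDiffAt ℝ ∞ ψ (φ u)) (hinv : ∀ u, ψ (φ u) = u) (hdet : ∀ u, (φ u).det = 1) :
    IsSubmanifold n d (range φ) := by
  have hfr : Module.finrank ℝ (EuclideanSpace ℝ (Fin d)) = Module.finrank ℝ E := by
    rw [hd, finrank_euclideanSpace_fin]
  let e : EuclideanSpace ℝ (Fin d) ≃L[ℝ] E := ContinuousLinearEquiv.ofFinrankEq hfr
  refine ⟨⟨φ 0, 0, rfl⟩, ?_, ?_⟩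
  · rintro _ ⟨u, rfl⟩
    exact hdet u
  · rintro _ ⟨u, rfl⟩
    have hrange : (fun v => φ (e v)) '' univ = range φ := by
      rw [image_univ]
      ext A
      constructor
      · rintro ⟨v, rfl⟩
        exact ⟨e v, rfl⟩
      · rintro ⟨v, rfl⟩
        exact ⟨e.symm v, by simp⟩
    refine ⟨univ, fun v => φ (e v), ⟨isOpen_univ, ?_, ?_, ?_⟩, ?_, univ, isOpen_univ, ?_⟩
    · intro i j v _
      have h1 : ContDiffAt ℝ ∞ (fun v => φ (e v) i j) v :=
        ContDiffAt.comp v (hs (e v) i j) e.contDiff.contDiffAt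
      exact h1.contDiffWithinAt
    · intro v _ w hw
      let Φ : EuclideanSpace ℝ (Fin d) → (Fin n → Fin n → ℝ) := fun v => φ (e v)
      have hΦ : ContDiffAt ℝ ∞ Φ v := by
        rw [contDiffAt_pi]
        intro i
        rw [contDiffAt_pi]
        intro j
        exact ContDiffAt.comp v (hs (e v) i j) e.contDiff.contDiffAt
      have hΦd : HasFDerivAt Φ (fderiv ℝ Φ v) v := (hΦ.differentiableAt (by simp)).hasFDerivAt
      have hz : fderiv ℝ Φ v w = 0 := by
        funext i j
        have h1 : HasFDerivAt (fun v => Φ v i j)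
            ((ContinuousLinearMap.proj (R := ℝ) (φ := fun _ : Fin n => ℝ) j).comp
              ((ContinuousLinearMap.proj (R := ℝ) (φ := fun _ : Fin n => Fin n → ℝ) i).comp
                (fderiv ℝ Φ v))) v := by
          have h2 := ((ContinuousLinearMap.proj (R := ℝ) (φ := fun _ : Fin n => Fin n → ℝ)
            i).hasFDerivAt (x := Φ v)).comp v hΦd
          exact ((ContinuousLinearMap.proj (R := ℝ) (φ := fun _ : Fin n => ℝ)
            j).hasFDerivAt (x := Φ v i)).comp v h2
        have h3 := hw i j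
        have h4 : fderiv ℝ (fun v => φ (e v) i j) v = _ := h1.fderiv
        rw [h4] at h3
        exact h3
      have hψd : HasFDerivAt ψ (fderiv ℝ ψ (Φ v)) (Φ v) :=
        ((hψ (e v)).differentiableAt (by simp)).hasFDerivAt
      have hcomp : HasFDerivAt (fun v => ψ (Φ v)) ((fderiv ℝ ψ (Φ v)).comp (fderiv ℝ Φ v)) v :=
        hψd.comp v hΦd
      have hid : HasFDerivAt (fun v => ψ (Φ v)) (e : EuclideanSpace ℝ (Fin d) →L[ℝ] E) v := by
        have : (fun v => ψ (Φ v)) = fun v => e v := funext fun v => hinv (e v)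
        rw [this]
        exact e.hasFDerivAt
      have h5 := hcomp.unique hid
      have h6 : (fderiv ℝ ψ (Φ v)) (fderiv ℝ Φ v w) = e w :=
        congrArg (fun L : EuclideanSpace ℝ (Fin d) →L[ℝ] E => L w) h5
      rw [hz, map_zero] at h6
      exact e.injective (by rw [← h6, map_zero])
    · refine ⟨fun A => e.symm (ψ A), ?_, fun v _ => (congrArg e.symm (hinv (e v))).trans (e.symm_apply_apply v)⟩
      rintro _ ⟨v, -, rfl⟩
      have h1 : ContinuousAt ψ (φ (e v)) := (hψ (e v)).continuousAt
      have h2 : ContinuousAt (fun A : Mat n => e.symm (ψ A)) (φ (e v)) :=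
        e.symm.continuous.continuousAt.comp h1
      exact h2.continuousWithinAt
    · rw [hrange]
      exact ⟨u, rfl⟩
    · rw [hrange, inter_univ]

/-- Pairs `i < j`. -/
abbrev Pr (n : ℕ) := {p : Fin n × Fin n // p.1 < p.2}

theorem card_Pr (n : ℕ) : 2 * Fintype.card (Pr n) = n * (n - 1) := by
  classical
  have h1 : Fintype.card (Pr n) = (Finset.univ.filter fun p : Fin n × Fin n => p.1 < p.2).card :=
    Fintype.card_subtype _
  have h2 : (Finset.univ.filter fun p : Fin n × Fin n => p.2 < p.1).card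
      = (Finset.univ.filter fun p : Fin n × Fin n => p.1 < p.2).card := by
    apply Finset.card_bij' (fun p _ => (p.2, p.1)) (fun p _ => (p.2, p.1)) <;> simp
  have h3 : (Finset.univ.filter fun p : Fin n × Fin n => p.1 ≠ p.2).card = n * (n - 1) := by
    have h4 : (Finset.univ.filter fun p : Fin n × Fin n => p.1 ≠ p.2)
        = (Finset.univ : Finset (Fin n)).offDiag := by
      ext p; simp
    rw [h4, Finset.offDiag_card]
    simp [Nat.mul_sub]
  have h5 : (Finset.univ.filter fun p : Fin n × Fin n => p.1 ≠ p.2)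
      = (Finset.univ.filter fun p : Fin n × Fin n => p.1 < p.2) ∪
        (Finset.univ.filter fun p : Fin n × Fin n => p.2 < p.1) := by
    ext p
    simp only [Finset.mem_filter, Finset.mem_univ, true_and, Finset.mem_union]
    exact ne_iff_lt_or_gt
  have h6 : Disjoint (Finset.univ.filter fun p : Fin n × Fin n => p.1 < p.2)
      (Finset.univ.filter fun p : Fin n × Fin n => p.2 < p.1) := by
    rw [Finset.disjoint_filter]
    intro p _ h h'
    exact absurd h (not_lt.mpr h'.le)
  rw [h5, Finset.card_union_of_disjoint h6, h2] at h3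
  rw [h1]
  omega

/-- The unitriangular matrix with given entries. -/
def uu (x : Pr n → ℝ) : Mat n := fun i j =>
  if h : i < j then x ⟨(i, j), h⟩ else if i = j then 1 else 0

theorem upp_uu (x : Pr n → ℝ) : Upp (uu x) := by
  constructor
  · intro i j hij
    simp [uu, not_lt.mpr hij.le, (ne_of_gt hij)]
  · intro i
    simp [uu]

theorem range_uu : range (uu : (Pr n → ℝ) → Mat n) = {A | Upp A} := by
  ext A
  constructor
  · rintro ⟨x, rfl⟩
    exact upp_uu x
  · rintro ⟨h1, h2⟩
    refine ⟨fun p => A p.1.1 p.1.2, ?_⟩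
    ext i j
    by_cases h : i < j
    · simp [uu, h]
    · by_cases h' : i = j
      · subst h'
        simp [uu, h2]
      · have : j < i := lt_of_le_of_ne (not_lt.mp h) (Ne.symm h')
        simp [uu, h, h', h1 i j this]

theorem isSubmanifold_upp : IsSubmanifold n (Fintype.card (Pr n)) {A | Upp A} := by
  rw [← range_uu]
  refine isSubmanifold_range (by simp) _ ?_ (fun A p => A p.1.1 p.1.2) ?_ ?_
    fun u => (upp_uu u).det
  · intro u i j
    by_cases h : i < j
    · simp only [uu, h, dif_pos]
      exact contDiffAt_pi.mp contDiffAt_id (⟨(i, j), h⟩ : Pr n)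
    · simp only [uu, h, dif_neg, not_false_eq_true]
      exact contDiffAt_const
  · intro u
    rw [contDiffAt_pi]
    intro p
    exact contDiffAt_pi.mp (contDiffAt_pi.mp contDiffAt_id p.1.1) p.1.2
  · intro u
    funext p
    simp [uu, p.2]

theorem isSubmanifold_low : IsSubmanifold n (Fintype.card (Pr n)) {A | Low A} := by
  have h1 : {A : Mat n | Low A} = range (fun x : Pr n → ℝ => (uu x)ᵀ) := by
    ext A
    constructor
    · intro hA
      have : Aᵀ ∈ range (uu : (Pr n → ℝ) → Mat n) := by
        rw [range_uu]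
        exact upp_transpose.mpr hA
      obtain ⟨x, hx⟩ := this
      exact ⟨x, by simp [hx]⟩
    · rintro ⟨x, rfl⟩
      exact upp_transpose.mp (by simpa using upp_uu x)
  rw [h1]
  refine isSubmanifold_range (by simp) _ ?_ (fun A p => A p.1.2 p.1.1) ?_ ?_
    fun u => by rw [det_transpose]; exact (upp_uu u).det
  · intro u i j
    show ContDiffAt ℝ ∞ (fun y => uu y j i) u
    by_cases h : j < i
    · simp only [uu, h, dif_pos]
      exact contDiffAt_pi.mp contDiffAt_id (⟨(j, i), h⟩ : Pr n)
    · simp only [uu, h, dif_neg, not_false_eq_true]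
      exact contDiffAt_const
  · intro u
    rw [contDiffAt_pi]
    intro p
    exact contDiffAt_pi.mp (contDiffAt_pi.mp contDiffAt_id p.1.2) p.1.1
  · intro u
    funext p
    show uu u p.1.1 p.1.2 = u p
    simp [uu, p.2]

end Pool.Agent.Q183.LE
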