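import Pool.Agent.Q183.LE.Ex

namespace Pool.Agent.Q183.LE

open Matrix Set Filter Topology
open scoped ContDiff

theorem level {X : Type*} [NormedAddCommGroup X] [NormedSpace ℝ X] [FiniteDimensional ℝ X]
    (G : X → (Fin 3 → ℝ)) (G' : X →L[ℝ] (Fin 3 → ℝ)) (x : X) (hG : HasStrictFDerivAt G G' x)
    (hs : G'.range = ⊤) (hd : 3 < Module.finrank ℝ X) (U : Set X) (hU : U ∈ 𝓝 x) :
    ∃ y ∈ U, y ≠ x ∧ G y = G x := by
  haveI : CompleteSpace X := FiniteDimensional.complete ℝ X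
  have hker : ∃ k : G'.ker, k ≠ 0 := by
    by_contra h
    push Not at h
    have hb : G'.ker = ⊥ := by
      rw [Submodule.eq_bot_iff]
      intro v hv
      have := h ⟨v, hv⟩
      exact congrArg Subtype.val this
    have h1 := LinearMap.finrank_range_add_finrank_ker (G' : X →ₗ[ℝ] (Fin 3 → ℝ))
    have h2 : Module.finrank ℝ (LinearMap.ker (G' : X →ₗ[ℝ] (Fin 3 → ℝ))) = 0 := by
      have : LinearMap.ker (G' : X →ₗ[ℝ] (Fin 3 → ℝ)) = ⊥ := hb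
      rw [this, finrank_bot]
    have h3 : Module.finrank ℝ (LinearMap.range (G' : X →ₗ[ℝ] (Fin 3 → ℝ))) ≤ 3 := by
      calc _ ≤ Module.finrank ℝ (Fin 3 → ℝ) := Submodule.finrank_le _
        _ = 3 := by simp
    omega
  obtain ⟨k, hk⟩ := hker
  let e := hG.implicitToOpenPartialHomeomorph G G' hs
  have hx : x ∈ e.source := hG.mem_implicitToOpenPartialHomeomorph_source hs
  have hex : e x = (G x, 0) := hG.implicitToOpenPartialHomeomorph_self hs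
  have ht : (G x, (0 : G'.ker)) ∈ e.target := hG.mem_implicitToOpenPartialHomeomorph_target hs
  have hpath : Tendsto (fun r : ℝ => (G x, r • k)) (𝓝 0) (𝓝 (G x, (0 : G'.ker))) := by
    have : Continuous fun r : ℝ => (G x, r • k) := by fun_prop
    have h1 := this.tendsto 0
    simpa using h1
  have h1 : Tendsto (fun r : ℝ => e.symm (G x, r • k)) (𝓝 0) (𝓝 x) := by
    have h2 := (e.tendsto_symm hx)
    rw [hex] at h2
    exact h2.comp hpath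
  have h2 : ∀ᶠ r : ℝ in 𝓝 0, e.symm (G x, r • k) ∈ U := h1 hU
  have h3 : ∀ᶠ r : ℝ in 𝓝 0, (G x, r • k) ∈ e.target := hpath (e.open_target.mem_nhds ht)
  have h4 : ∀ᶠ r : ℝ in 𝓝[≠] 0, e.symm (G x, r • k) ∈ U ∧ (G x, r • k) ∈ e.target ∧ r ≠ 0 := by
    filter_upwards [nhdsWithin_le_nhds h2, nhdsWithin_le_nhds h3, self_mem_nhdsWithin]
      with r a b c using ⟨a, b, c⟩
  obtain ⟨r, hr1, hr2, hr3⟩ := h4.exists
  have h5 : e (e.symm (G x, r • k)) = (G x, r • k) := e.right_inv hr2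
  refine ⟨_, hr1, ?_, ?_⟩
  · intro h6
    rw [h6, hex] at h5
    have h7 : (0 : G'.ker) = r • k := congrArg Prod.snd h5
    rcases smul_eq_zero.mp h7.symm with h8 | h8
    · exact hr3 h8
    · exact hk h8
  · exact congrArg Prod.fst h5

section

variable {E : Type} [NormedAddCommGroup E] [NormedSpace ℝ E]

/-- The entrywise derivative. -/
noncomputable def dd (φ : E → Mat 2) (x v : E) : Mat 2 :=
  of fun i j => fderiv ℝ (fun u => φ u i j) x v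

/-- Three coordinates of a `2 × 2` matrix. -/
def pi3 (X : Mat 2) : Fin 3 → ℝ := ![X 0 0, X 0 1, X 1 0]

theorem dd_add (φ : E → Mat 2) (x v w : E) : dd φ x (v + w) = dd φ x v + dd φ x w := by
  ext i j
  simp [dd]

theorem dd_smul (φ : E → Mat 2) (x v : E) (c : ℝ) : dd φ x (c • v) = c • dd φ x v := by
  ext i j
  simp [dd]

/-- The right translated tangent map in coordinates. -/
noncomputable def rho (φ : E → Mat 2) (x : E) : E →ₗ[ℝ] (Fin 3 → ℝ) where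
  toFun v := pi3 (dd φ x v * (φ x)⁻¹)
  map_add' v w := by
    rw [dd_add, Matrix.add_mul]
    funext k
    fin_cases k <;> simp [pi3]
  map_smul' c v := by
    rw [dd_smul, Matrix.smul_mul]
    funext k
    fin_cases k <;> simp [pi3]

theorem rho_apply (φ : E → Mat 2) (x v : E) : rho φ x v = pi3 (dd φ x v * (φ x)⁻¹) := rfl

/-- Data of a chart with values in `SL₂`. -/
structure Ch (U : Set E) (φ : E → Mat 2) : Prop where
  isOpen : IsOpen U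
  smooth : ∀ u ∈ U, SmoothAt φ u
  imm : ∀ u ∈ U, ∀ v, dd φ u v = 0 → v = 0
  inj : InjOn φ U
  det : ∀ u ∈ U, (φ u).det = 1

theorem inv_eq {A : Mat 2} (h : A.det = 1) : A⁻¹ = !![A 1 1, -A 0 1; -A 1 0, A 0 0] := by
  rw [Matrix.inv_def, h, Ring.inverse_one, one_smul, adjugate_fin_two]

variable {U : Set E} {φ : E → Mat 2}

theorem Ch.trace (h : Ch U φ) {x : E} (hx : x ∈ U) (v : E) :
    (dd φ x v * (φ x)⁻¹) 1 1 = -(dd φ x v * (φ x)⁻¹) 0 0 := by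
  have hd : ∀ i j, HasFDerivAt (fun u => φ u i j) (fderiv ℝ (fun u => φ u i j) x) x := fun i j =>
    ((h.smooth x hx i j).differentiableAt (by simp)).hasFDerivAt
  have h1 : HasFDerivAt (fun u => φ u 0 0 * φ u 1 1 - φ u 0 1 * φ u 1 0)
      ((φ x 0 0 • fderiv ℝ (fun u => φ u 1 1) x + φ x 1 1 • fderiv ℝ (fun u => φ u 0 0) x) -
        (φ x 0 1 • fderiv ℝ (fun u => φ u 1 0) x + φ x 1 0 • fderiv ℝ (fun u => φ u 0 1) x)) x :=
    ((hd 0 0).mul (hd 1 1)).sub ((hd 0 1).mul (hd 1 0))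
  have h2 : (fun u => φ u 0 0 * φ u 1 1 - φ u 0 1 * φ u 1 0) =ᶠ[𝓝 x] fun _ => (1 : ℝ) := by
    filter_upwards [h.isOpen.mem_nhds hx] with u hu
    rw [← det_fin_two, h.det u hu]
  have h3 := (h2.hasFDerivAt_iff.mp h1).unique (hasFDerivAt_const (1 : ℝ) x)
  have h4 := congrArg (fun L : E →L[ℝ] ℝ => L v) h3
  simp only [_root_.sub_apply, _root_.add_apply,
    _root_.smul_apply, smul_eq_mul, _root_.zero_apply] at h4
  rw [inv_eq (h.det x hx)]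
  simp only [mul_apply, Fin.sum_univ_two, dd, of_apply, cons_val', cons_val_zero, cons_val_one,
    cons_val_fin_one]
  linarith

theorem Ch.rho_inj (h : Ch U φ) {x : E} (hx : x ∈ U) : Function.Injective (rho φ x) := by
  rw [injective_iff_map_eq_zero]
  intro v hv
  rw [rho_apply] at hv
  have h1 := h.trace hx v
  have e0 := congrFun hv 0
  have e1 := congrFun hv 1
  have e2 := congrFun hv 2
  simp only [pi3, cons_val_zero, cons_val_one, cons_val, Pi.zero_apply] at e0 e1 e2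
  have hX : dd φ x v * (φ x)⁻¹ = 0 := by
    ext i j
    fin_cases i <;> fin_cases j
    · exact e0
    · exact e1
    · exact e2
    · show (dd φ x v * (φ x)⁻¹) 1 1 = 0
      rw [h1, e0, neg_zero]
  have hu : IsUnit (φ x).det := by rw [h.det x hx]; exact isUnit_one
  refine h.imm x hx v ?_
  calc dd φ x v = dd φ x v * (φ x)⁻¹ * φ x := by
        rw [Matrix.mul_assoc, nonsing_inv_mul _ hu, Matrix.mul_one]
    _ = 0 := by rw [hX, Matrix.zero_mul]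

end

theorem part {X E : Type} [NormedAddCommGroup X] [NormedSpace ℝ X] [NormedAddCommGroup E]
    [NormedSpace ℝ E] {G : X → (Fin 3 → ℝ)} {x : X} (hG : DifferentiableAt ℝ G x)
    {ι : E → X} {J : E →L[ℝ] X} {a : E} (hι : HasFDerivAt ι J a) (hx : ι a = x)
    {φ : E → Mat 2} (hφ : SmoothAt φ a) (N : Mat 2) (h : ∀ b, G (ι b) = pi3 (φ b * N)) (v : E) :
    fderiv ℝ G x (J v) = pi3 (dd φ a v * N) := by
  have hd : ∀ i j, HasFDerivAt (fun u => φ u i j) (fderiv ℝ (fun u => φ u i j) a) a := fun i j =>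
    ((hφ i j).differentiableAt (by simp)).hasFDerivAt
  have hN : ∀ i j, HasFDerivAt (fun b => (φ b * N) i j)
      (N 0 j • fderiv ℝ (fun u => φ u i 0) a + N 1 j • fderiv ℝ (fun u => φ u i 1) a) a := by
    intro i j
    have h1 := ((hd i 0).mul_const (N 0 j)).add ((hd i 1).mul_const (N 1 j))
    have h2 : (fun b => (φ b * N) i j) = fun b => φ b i 0 * N 0 j + φ b i 1 * N 1 j := by
      funext b
      rw [mul_apply, Fin.sum_univ_two]
    rw [h2]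
    exact h1
  have hval : ∀ i j, (N 0 j • fderiv ℝ (fun u => φ u i 0) a + N 1 j • fderiv ℝ (fun u => φ u i 1) a) v
      = (dd φ a v * N) i j := by
    intro i j
    rw [mul_apply, Fin.sum_univ_two]
    simp only [_root_.add_apply, _root_.smul_apply, smul_eq_mul, dd, of_apply]
    ring
  have hGι : HasFDerivAt (fun b => G (ι b)) ((fderiv ℝ G x).comp J) a := by
    subst hx
    exact hG.hasFDerivAt.comp a hι
  have hk : ∀ k : Fin 3, HasFDerivAt (fun b => G (ι b) k)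
      ((ContinuousLinearMap.proj (R := ℝ) (φ := fun _ : Fin 3 => ℝ) k).comp
        ((fderiv ℝ G x).comp J)) a := fun k => hasFDerivAt_pi'.mp hGι k
  have key : ∀ k : Fin 3, ∀ i j, (∀ X : Mat 2, pi3 X k = X i j) →
      fderiv ℝ G x (J v) k = pi3 (dd φ a v * N) k := by
    intro k i j hij
    have h1 : (fun b => G (ι b) k) = fun b => (φ b * N) i j := by
      funext b
      rw [h b, hij]
    have h2 := hk k
    rw [h1] at h2
    have h3 := h2.unique (hN i j)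
    have h4 := congrArg (fun L : E →L[ℝ] ℝ => L v) h3
    rw [hij, ← hval i j]
    exact h4
  funext k
  fin_cases k
  · exact key 0 0 0 fun X => rfl
  · exact key 1 0 1 fun X => rfl
  · exact key 2 1 0 fun X => rfl

variable {E₁ E₂ E₃ : Type} [NormedAddCommGroup E₁] [NormedSpace ℝ E₁] [FiniteDimensional ℝ E₁]
  [NormedAddCommGroup E₂] [NormedSpace ℝ E₂] [FiniteDimensional ℝ E₂]
  [NormedAddCommGroup E₃] [NormedSpace ℝ E₃] [FiniteDimensional ℝ E₃]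

theorem sup_ne_top {U₁ : Set E₁} {φ₁ : E₁ → Mat 2} (h₁ : Ch U₁ φ₁)
    {U₂ : Set E₂} {φ₂ : E₂ → Mat 2} (h₂ : Ch U₂ φ₂)
    {U₃ : Set E₃} {φ₃ : E₃ → Mat 2} (h₃ : Ch U₃ φ₃)
    (hd : 3 < Module.finrank ℝ E₁ + Module.finrank ℝ E₂ + Module.finrank ℝ E₃)
    (htpp : TPP (φ₁ '' U₁) (φ₂ '' U₂) (φ₃ '' U₃)) {x₁ : E₁} (hx₁ : x₁ ∈ U₁) {x₂ : E₂}
    (hx₂ : x₂ ∈ U₂) {x₃ : E₃} (hx₃ : x₃ ∈ U₃) :
    LinearMap.range (rho φ₁ x₁) ⊔ LinearMap.range (rho φ₂ x₂) ⊔ LinearMap.range (rho φ₃ x₃) ≠ ⊤ := by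
  intro htop
  have u1 : IsUnit (φ₁ x₁).det := by rw [h₁.det x₁ hx₁]; exact isUnit_one
  have u2 : IsUnit (φ₂ x₂).det := by rw [h₂.det x₂ hx₂]; exact isUnit_one
  have u3 : IsUnit (φ₃ x₃).det := by rw [h₃.det x₃ hx₃]; exact isUnit_one
  let F : E₁ × E₂ × E₃ → Mat 2 := fun p =>
    φ₁ p.1 * (φ₁ x₁)⁻¹ * (φ₂ p.2.1 * (φ₂ x₂)⁻¹) * (φ₃ p.2.2 * (φ₃ x₃)⁻¹)
  let x : E₁ × E₂ × E₃ := (x₁, x₂, x₃)
  have hF1 : SmoothAt (fun p : E₁ × E₂ × E₃ => φ₁ p.1) x := fun i j =>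
    ContDiffAt.comp x (h₁.smooth x₁ hx₁ i j) contDiffAt_fst
  have hF2 : SmoothAt (fun p : E₁ × E₂ × E₃ => φ₂ p.2.1) x := fun i j =>
    ContDiffAt.comp x (h₂.smooth x₂ hx₂ i j) (contDiffAt_fst.comp x contDiffAt_snd)
  have hF3 : SmoothAt (fun p : E₁ × E₂ × E₃ => φ₃ p.2.2) x := fun i j =>
    ContDiffAt.comp x (h₃.smooth x₃ hx₃ i j) (contDiffAt_snd.comp x contDiffAt_snd)
  have hF : SmoothAt F x := ((hF1.mul (smoothAt_const _ x)).mul (hF2.mul (smoothAt_const _ x))).mul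
    (hF3.mul (smoothAt_const _ x))
  let G : E₁ × E₂ × E₃ → (Fin 3 → ℝ) := fun p => pi3 (F p)
  have hG : ContDiffAt ℝ ∞ G x := by
    rw [contDiffAt_pi]
    intro k
    fin_cases k
    · exact hF 0 0
    · exact hF 0 1
    · exact hF 1 0
  have hGs : HasStrictFDerivAt G (fderiv ℝ G x) x := hG.hasStrictFDerivAt (by simp)
  have hGd : DifferentiableAt ℝ G x := hG.differentiableAt (by simp)
  have p1 : ∀ v, fderiv ℝ G x (ContinuousLinearMap.inl ℝ E₁ (E₂ × E₃) v) = rho φ₁ x₁ v := by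
    intro v
    refine part hGd (hasFDerivAt_prodMk_left x₁ (x₂, x₃)) rfl (h₁.smooth x₁ hx₁) _ ?_ v
    intro b
    show pi3 (φ₁ b * (φ₁ x₁)⁻¹ * (φ₂ x₂ * (φ₂ x₂)⁻¹) * (φ₃ x₃ * (φ₃ x₃)⁻¹)) = _
    rw [mul_nonsing_inv _ u2, mul_nonsing_inv _ u3, Matrix.mul_one, Matrix.mul_one]
  have p2 : ∀ v, fderiv ℝ G x (((ContinuousLinearMap.inr ℝ E₁ (E₂ × E₃)).comp
      (ContinuousLinearMap.inl ℝ E₂ E₃)) v) = rho φ₂ x₂ v := by
    intro v
    refine part hGd (ι := fun b => (x₁, (b, x₃))) ((hasFDerivAt_prodMk_right x₁ (x₂, x₃)).comp x₂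
      (hasFDerivAt_prodMk_left x₂ x₃)) rfl (h₂.smooth x₂ hx₂) _ ?_ v
    intro b
    show pi3 (φ₁ x₁ * (φ₁ x₁)⁻¹ * (φ₂ b * (φ₂ x₂)⁻¹) * (φ₃ x₃ * (φ₃ x₃)⁻¹)) = _
    rw [mul_nonsing_inv _ u1, mul_nonsing_inv _ u3, Matrix.mul_one, Matrix.one_mul]
  have p3 : ∀ v, fderiv ℝ G x (((ContinuousLinearMap.inr ℝ E₁ (E₂ × E₃)).comp
      (ContinuousLinearMap.inr ℝ E₂ E₃)) v) = rho φ₃ x₃ v := by
    intro v
    refine part hGd (ι := fun b => (x₁, (x₂, b))) ((hasFDerivAt_prodMk_right x₁ (x₂, x₃)).comp x₃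
      (hasFDerivAt_prodMk_right x₂ x₃)) rfl (h₃.smooth x₃ hx₃) _ ?_ v
    intro b
    show pi3 (φ₁ x₁ * (φ₁ x₁)⁻¹ * (φ₂ x₂ * (φ₂ x₂)⁻¹) * (φ₃ b * (φ₃ x₃)⁻¹)) = _
    rw [mul_nonsing_inv _ u1, mul_nonsing_inv _ u2, Matrix.mul_one, Matrix.one_mul]
  have hsurj : (fderiv ℝ G x).range = ⊤ := by
    rw [eq_top_iff]
    intro w _
    have hw : w ∈ LinearMap.range (rho φ₁ x₁) ⊔ LinearMap.range (rho φ₂ x₂) ⊔
        LinearMap.range (rho φ₃ x₃) := by rw [htop]; trivial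
    obtain ⟨y, hy, z, hz, rfl⟩ := Submodule.mem_sup.mp hw
    obtain ⟨y₁, hy₁, y₂, hy₂, rfl⟩ := Submodule.mem_sup.mp hy
    obtain ⟨v₁, rfl⟩ := hy₁
    obtain ⟨v₂, rfl⟩ := hy₂
    obtain ⟨v₃, rfl⟩ := hz
    refine ⟨ContinuousLinearMap.inl ℝ E₁ (E₂ × E₃) v₁ + ((ContinuousLinearMap.inr ℝ E₁ (E₂ × E₃)).comp
      (ContinuousLinearMap.inl ℝ E₂ E₃)) v₂ + ((ContinuousLinearMap.inr ℝ E₁ (E₂ × E₃)).comp
      (ContinuousLinearMap.inr ℝ E₂ E₃)) v₃, ?_⟩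
    show fderiv ℝ G x _ = _
    rw [map_add, map_add, p1, p2, p3]
  obtain ⟨y, hyU, hyx, hGy⟩ := level G _ x hGs hsurj (by simp; omega) (U₁ ×ˢ U₂ ×ˢ U₃)
    ((h₁.isOpen.prod (h₂.isOpen.prod h₃.isOpen)).mem_nhds ⟨hx₁, hx₂, hx₃⟩)
  obtain ⟨a, b, c⟩ := y
  obtain ⟨ha, hb, hc⟩ := hyU
  simp only at ha hb hc
  have hFx : F x = 1 := by
    show φ₁ x₁ * (φ₁ x₁)⁻¹ * (φ₂ x₂ * (φ₂ x₂)⁻¹) * (φ₃ x₃ * (φ₃ x₃)⁻¹) = 1
    rw [mul_nonsing_inv _ u1, mul_nonsing_inv _ u2, mul_nonsing_inv _ u3, Matrix.mul_one,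
      Matrix.mul_one]
  have hdetF : (F (a, b, c)).det = 1 := by
    show (φ₁ a * (φ₁ x₁)⁻¹ * (φ₂ b * (φ₂ x₂)⁻¹) * (φ₃ c * (φ₃ x₃)⁻¹)).det = 1
    simp only [det_mul, det_nonsing_inv, Ring.inverse_eq_inv', h₁.det _ ha, h₂.det _ hb,
      h₃.det _ hc, h₁.det _ hx₁, h₂.det _ hx₂, h₃.det _ hx₃]
    norm_num
  have hG1 : pi3 (F (a, b, c)) = pi3 1 := by
    rw [← hFx]
    exact hGy
  have hF1' : F (a, b, c) = 1 := by
    have e0 := congrFun hG1 0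
    have e1 := congrFun hG1 1
    have e2 := congrFun hG1 2
    simp only [pi3, cons_val_zero, cons_val_one, cons_val] at e0 e1 e2
    have e0' : F (a, b, c) 0 0 = 1 := by rw [e0]; simp
    have e1' : F (a, b, c) 0 1 = 0 := by rw [e1]; simp
    have e2' : F (a, b, c) 1 0 = 0 := by rw [e2]; simp
    have e3' : F (a, b, c) 1 1 = 1 := by
      rw [det_fin_two, e0', e1', e2'] at hdetF
      linarith
    ext i j
    fin_cases i <;> fin_cases j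
    · simpa using e0'
    · simpa using e1'
    · simpa using e2'
    · simpa using e3'
  obtain ⟨q1, q2, q3⟩ := htpp (φ₁ a * (φ₁ x₁)⁻¹) ⟨_, ⟨a, ha, rfl⟩, _, ⟨x₁, hx₁, rfl⟩, rfl⟩
    (φ₂ b * (φ₂ x₂)⁻¹) ⟨_, ⟨b, hb, rfl⟩, _, ⟨x₂, hx₂, rfl⟩, rfl⟩
    (φ₃ c * (φ₃ x₃)⁻¹) ⟨_, ⟨c, hc, rfl⟩, _, ⟨x₃, hx₃, rfl⟩, rfl⟩ hF1'
  have cancel : ∀ {A B : Mat 2}, IsUnit B.det → A * B⁻¹ = 1 → A = B := by
    intro A B hB h
    calc A = A * B⁻¹ * B := by rw [Matrix.mul_assoc, nonsing_inv_mul _ hB, Matrix.mul_one]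
      _ = B := by rw [h, Matrix.one_mul]
  have r1 := h₁.inj ha hx₁ (cancel u1 q1)
  have r2 := h₂.inj hb hx₂ (cancel u2 q2)
  have r3 := h₃.inj hc hx₃ (cancel u3 q3)
  exact hyx (by rw [r1, r2, r3])

end Pool.Agent.Q183.LE
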