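import Pool.Agent.Q183.LE.Lev

namespace Pool.Agent.Q183.LE

open Matrix Set Filter Topology
open scoped ContDiff

variable {E E' : Type} [NormedAddCommGroup E] [NormedSpace ℝ E] [FiniteDimensional ℝ E]
  [NormedAddCommGroup E'] [NormedSpace ℝ E'] [FiniteDimensional ℝ E']

/-- Matrices as functions. -/
def asFun (φ : E → Mat 2) : E → (Fin 2 → Fin 2 → ℝ) := fun x i j => φ x i j

theorem smoothAt_asFun {φ : E → Mat 2} {x : E} (h : SmoothAt φ x) :
    ContDiffAt ℝ ∞ (asFun φ) x := by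
  rw [contDiffAt_pi]
  intro i
  rw [contDiffAt_pi]
  intro j
  exact h i j

theorem fderiv_asFun {φ : E → Mat 2} {x : E} (h : SmoothAt φ x) (v : E) :
    fderiv ℝ (asFun φ) x v = fun i j => dd φ x v i j := by
  have h1 : HasFDerivAt (asFun φ) (fderiv ℝ (asFun φ) x) x :=
    ((smoothAt_asFun h).differentiableAt (by simp)).hasFDerivAt
  funext i j
  have h2 := hasFDerivAt_pi'.mp (hasFDerivAt_pi'.mp h1 i) j
  have h3 : fderiv ℝ (fun u => φ u i j) x = _ := h2.fderiv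
  show _ = fderiv ℝ (fun u => φ u i j) x v
  rw [h3]
  rfl

/-- The right logarithmic derivative. -/
noncomputable def tau (χ : E' → Mat 2) (w y : E') : Mat 2 := dd χ y w * (χ y)⁻¹

theorem exists_vec {U : Set E} {φ : E → Mat 2} (h : Ch U φ) {V : Set E'} {χ : E' → Mat 2}
    (k : Ch V χ) {x : E} (hx : x ∈ U) {y : E'} (hy : y ∈ V) {w : E'}
    (hc : rho χ y w ∈ LinearMap.range (rho φ x)) : ∃ v, dd φ x v = tau χ w y * φ x := by
  obtain ⟨v, hv⟩ := hc
  rw [rho_apply, rho_apply] at hv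
  have e0 := congrFun hv 0
  have e1 := congrFun hv 1
  have e2 := congrFun hv 2
  simp only [pi3, cons_val_zero, cons_val_one, cons_val] at e0 e1 e2
  have t1 := h.trace hx v
  have t2 := k.trace hy w
  have hX : dd φ x v * (φ x)⁻¹ = tau χ w y := by
    ext i j
    fin_cases i <;> fin_cases j
    · exact e0
    · exact e1
    · exact e2
    · show (dd φ x v * (φ x)⁻¹) 1 1 = (dd χ y w * (χ y)⁻¹) 1 1
      rw [t1, t2, e0]
  have hu : IsUnit (φ x).det := by rw [h.det x hx]; exact isUnit_one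
  refine ⟨v, ?_⟩
  rw [← hX, Matrix.mul_assoc, nonsing_inv_mul _ hu, Matrix.mul_one]

theorem const_of_zero {δ : ℝ} (hδ : 0 < δ) {q : ℝ → ℝ} (hq : ∀ t ∈ Ioo (-δ) δ, HasDerivAt q 0 t)
    {t : ℝ} (ht : t ∈ Ioo (-δ) δ) : q t = q 0 := by
  refine isOpen_Ioo.is_const_of_deriv_eq_zero isPreconnected_Ioo ?_ ?_ ht ⟨by linarith, hδ⟩
  · intro s hs
    exact (hq s hs).differentiableAt.differentiableWithinAt
  · intro s hs
    exact (hq s hs).deriv

theorem ode_pair {U : Set E} {φ : E → Mat 2} (h : Ch U φ) {V : Set E'} {χ : E' → Mat 2}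
    (k : Ch V χ) {x₀ : E} (hx₀ : x₀ ∈ U) {y₀ : E'} (hy₀ : y₀ ∈ V) {w : E'} (hw : w ≠ 0)
    (hc : ∀ x ∈ U, ∀ y ∈ V, rho χ y w ∈ LinearMap.range (rho φ x)) :
    ∃ x ∈ U, ∃ y ∈ V, y ≠ y₀ ∧ φ x * (φ x₀)⁻¹ = χ y * (χ y₀)⁻¹ := by
  haveI : CompleteSpace E := FiniteDimensional.complete ℝ E
  -- left inverse
  obtain ⟨P₀, hP₀⟩ := LinearMap.exists_leftInverse_of_injective
    (fderiv ℝ (asFun φ) x₀ : E →ₗ[ℝ] (Fin 2 → Fin 2 → ℝ)) (by
      rw [LinearMap.ker_eq_bot']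
      intro v hv
      refine h.imm x₀ hx₀ v ?_
      ext i j
      have h1 : fderiv ℝ (asFun φ) x₀ v = 0 := hv
      rw [fderiv_asFun (h.smooth x₀ hx₀)] at h1
      exact congrFun (congrFun h1 i) j)
  let P : (Fin 2 → Fin 2 → ℝ) →L[ℝ] E := LinearMap.toContinuousLinearMap P₀
  have hP : ∀ v, P (fderiv ℝ (asFun φ) x₀ v) = v := fun v =>
    congrArg (fun L : E →ₗ[ℝ] E => L v) hP₀
  let A : E → (E →L[ℝ] E) := fun x => P.comp (fderiv ℝ (asFun φ) x)
  have hfd : ContDiffAt ℝ 1 (fderiv ℝ (asFun φ)) x₀ :=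
    (smoothAt_asFun (h.smooth x₀ hx₀)).fderiv_right (m := 1) (by norm_cast)
  have hA : ContDiffAt ℝ 1 A x₀ := contDiffAt_const.clm_comp hfd
  have hA0 : A x₀ = ((ContinuousLinearEquiv.refl ℝ E : E ≃L[ℝ] E) : E →L[ℝ] E) := by
    ext v
    exact hP v
  let B : E → (E →L[ℝ] E) := fun x => ContinuousLinearMap.inverse (A x)
  have hB : ContDiffAt ℝ 1 B x₀ := by
    have h1 : ContDiffAt ℝ 1 (ContinuousLinearMap.inverse (R := ℝ) (M := E) (M₂ := E)) (A x₀) := by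
      rw [hA0]
      exact contDiffAt_map_inverse _
    exact ContDiffAt.comp x₀ h1 hA
  -- the right-hand side
  have hline : ContDiffAt ℝ ∞ (fun p : ℝ × E => y₀ + p.1 • w) (0, x₀) :=
    contDiffAt_const.add (contDiffAt_fst.smul contDiffAt_const)
  have hl0 : y₀ + ((0 : ℝ), x₀).1 • w = y₀ := by simp
  have hχl : SmoothAt (fun p : ℝ × E => χ (y₀ + p.1 • w)) (0, x₀) := by
    intro i j
    refine ContDiffAt.comp (g := fun u => χ u i j) (0, x₀) ?_ hline
    rw [hl0]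
    exact k.smooth y₀ hy₀ i j
  have hddl : SmoothAt (fun p : ℝ × E => dd χ (y₀ + p.1 • w) w) (0, x₀) := by
    intro i j
    show ContDiffAt ℝ ∞ (fun p : ℝ × E => fderiv ℝ (fun u => χ u i j) (y₀ + p.1 • w) w) (0, x₀)
    have h1 : ContDiffAt ℝ ∞ (fun p : ℝ × E => fderiv ℝ (fun u => χ u i j) (y₀ + p.1 • w))
        (0, x₀) := by
      refine ContDiffAt.comp (g := fderiv ℝ (fun u => χ u i j)) (0, x₀) ?_ hline
      rw [hl0]
      exact (k.smooth y₀ hy₀ i j).fderiv_right (m := ∞) (by simp)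
    exact h1.clm_apply contDiffAt_const
  have htau : SmoothAt (fun p : ℝ × E => tau χ w (y₀ + p.1 • w)) (0, x₀) := by
    unfold tau
    refine hddl.mul (hχl.inv ?_)
    rw [hl0, k.det y₀ hy₀]
    exact one_ne_zero
  have hφ2 : SmoothAt (fun p : ℝ × E => φ p.2) (0, x₀) := fun i j =>
    ContDiffAt.comp (g := fun u => φ u i j) (0, x₀) (h.smooth x₀ hx₀ i j) contDiffAt_snd
  let T : ℝ × E → (Fin 2 → Fin 2 → ℝ) := fun p i j => (tau χ w (y₀ + p.1 • w) * φ p.2) i j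
  have hT : ContDiffAt ℝ 1 T (0, x₀) := by
    rw [contDiffAt_pi]
    intro i
    rw [contDiffAt_pi]
    intro j
    exact ((htau.mul hφ2) i j).of_le (by norm_cast)
  let f : ℝ × E → ℝ × E := fun p => (1, B p.2 (P (T p)))
  have hf : ContDiffAt ℝ 1 f (0, x₀) := by
    refine ContDiffAt.prodMk contDiffAt_const ?_
    have h1 : ContDiffAt ℝ 1 (fun p : ℝ × E => B p.2) (0, x₀) :=
      ContDiffAt.comp (g := B) (0, x₀) hB contDiffAt_snd
    exact h1.clm_apply (P.contDiff.contDiffAt.comp _ hT)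
  obtain ⟨α, hα0, ε, hε, hα⟩ :=
    hf.exists_forall_mem_closedBall_exists_eq_forall_mem_Ioo_hasDerivAt₀ 0
  -- the good neighbourhood
  have hN1 : ∀ᶠ p : ℝ × E in 𝓝 (0, x₀), p.2 ∈ U :=
    continuousAt_snd (h.isOpen.mem_nhds hx₀)
  have hN2 : ∀ᶠ p : ℝ × E in 𝓝 (0, x₀), y₀ + p.1 • w ∈ V := by
    refine hline.continuousAt (k.isOpen.mem_nhds ?_)
    rw [hl0]
    exact hy₀
  have hN3 : ∀ᶠ p : ℝ × E in 𝓝 (0, x₀), A p.2 ∈ range ((↑) : (E ≃L[ℝ] E) → (E →L[ℝ] E)) := by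
    have h1 : ContinuousAt (fun p : ℝ × E => A p.2) (0, x₀) :=
      ContinuousAt.comp (g := A) (x := (0, x₀)) hA.continuousAt continuousAt_snd
    refine h1 ?_
    show range ((↑) : (E ≃L[ℝ] E) → (E →L[ℝ] E)) ∈ 𝓝 (A x₀)
    rw [hA0]
    exact ContinuousLinearEquiv.nhds _
  have hαc : ContinuousAt α 0 := (hα 0 ⟨by linarith, by linarith⟩).continuousAt
  have hN : ∀ᶠ t : ℝ in 𝓝 0, (α t).2 ∈ U ∧ y₀ + (α t).1 • w ∈ V ∧
      A (α t).2 ∈ range ((↑) : (E ≃L[ℝ] E) → (E →L[ℝ] E)) := by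
    have h1 : Tendsto α (𝓝 0) (𝓝 (0, x₀)) := by
      have := hαc.tendsto
      rwa [hα0] at this
    exact h1.eventually (hN1.and (hN2.and hN3))
  obtain ⟨δ', hδ', hball⟩ := Metric.eventually_nhds_iff.mp hN
  obtain ⟨δ, hδdef⟩ : ∃ δ, δ = min δ' ε := ⟨_, rfl⟩
  have hδ : 0 < δ := by rw [hδdef]; exact lt_min hδ' hε
  have hgood : ∀ t ∈ Ioo (-δ) δ, (α t).2 ∈ U ∧ y₀ + (α t).1 • w ∈ V ∧
      A (α t).2 ∈ range ((↑) : (E ≃L[ℝ] E) → (E →L[ℝ] E)) := by
    intro t ht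
    apply hball
    rw [Real.dist_eq, sub_zero, abs_lt]
    have := min_le_left δ' ε
    constructor <;> [linarith [ht.1]; linarith [ht.2]]
  have hder : ∀ t ∈ Ioo (-δ) δ, HasDerivAt α (f (α t)) t := by
    intro t ht
    have := min_le_right δ' ε
    exact hα t ⟨by linarith [ht.1], by linarith [ht.2]⟩
  -- derivative identity
  have hid : ∀ t ∈ Ioo (-δ) δ, dd φ (α t).2 (f (α t)).2 =
      tau χ w (y₀ + (α t).1 • w) * φ (α t).2 := by
    intro t ht
    obtain ⟨hU, hV, e, he⟩ := hgood t ht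
    obtain ⟨v, hv⟩ := exists_vec h k hU hV (hc _ hU _ hV)
    have h1 : fderiv ℝ (asFun φ) (α t).2 v = T (α t) := by
      rw [fderiv_asFun (h.smooth _ hU), hv]
    have h2 : A (α t).2 v = P (T (α t)) := by
      show P (fderiv ℝ (asFun φ) (α t).2 v) = _
      rw [h1]
    have h3 : (f (α t)).2 = v := by
      show ContinuousLinearMap.inverse (A (α t).2) (P (T (α t))) = v
      rw [← h2, ← he, ContinuousLinearMap.inverse_equiv]
      exact e.symm_apply_apply v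
    rw [h3, hv]
  have hh : ∀ t ∈ Ioo (-δ) δ, ∀ i j, HasDerivAt (fun s => φ (α s).2 i j)
      ((tau χ w (y₀ + (α t).1 • w) * φ (α t).2) i j) t := by
    intro t ht i j
    obtain ⟨hU, -, -⟩ := hgood t ht
    have h1 : HasFDerivAt (fun u => φ u i j) (fderiv ℝ (fun u => φ u i j) (α t).2) (α t).2 :=
      ((h.smooth _ hU i j).differentiableAt (by simp)).hasFDerivAt
    have h2 : HasDerivAt (fun s => (α s).2) (f (α t)).2 t := (hder t ht).snd
    have h3 := h1.comp_hasDerivAt t h2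
    rw [← hid t ht]
    exact h3
  have hg : ∀ t ∈ Ioo (-δ) δ, ∀ i j, HasDerivAt (fun s => χ (y₀ + (α s).1 • w) i j)
      ((tau χ w (y₀ + (α t).1 • w) * χ (y₀ + (α t).1 • w)) i j) t := by
    intro t ht i j
    obtain ⟨-, hV, -⟩ := hgood t ht
    have h1 : HasFDerivAt (fun u => χ u i j) (fderiv ℝ (fun u => χ u i j) (y₀ + (α t).1 • w))
        (y₀ + (α t).1 • w) := ((k.smooth _ hV i j).differentiableAt (by simp)).hasFDerivAt
    have h2 : HasDerivAt (fun s => (α s).1) 1 t := (hder t ht).fst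
    have h2' : HasDerivAt (fun s => y₀ + (α s).1 • w) w t := by
      have := (h2.smul_const w).const_add y₀
      rwa [one_smul] at this
    have h3 := h1.comp_hasDerivAt t h2'
    have hu : IsUnit (χ (y₀ + (α t).1 • w)).det := by rw [k.det _ hV]; exact isUnit_one
    have h4 : tau χ w (y₀ + (α t).1 • w) * χ (y₀ + (α t).1 • w) = dd χ (y₀ + (α t).1 • w) w := by
      unfold tau
      rw [Matrix.mul_assoc, nonsing_inv_mul _ hu, Matrix.mul_one]
    rw [h4]
    exact h3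
  have htr : ∀ t ∈ Ioo (-δ) δ, tau χ w (y₀ + (α t).1 • w) 1 1 =
      -tau χ w (y₀ + (α t).1 • w) 0 0 := fun t ht => k.trace (hgood t ht).2.1 w
  have hq : ∀ t ∈ Ioo (-δ) δ, ∀ j,
      HasDerivAt (fun s => χ (y₀ + (α s).1 • w) 1 1 * φ (α s).2 0 j -
        χ (y₀ + (α s).1 • w) 0 1 * φ (α s).2 1 j) 0 t ∧
      HasDerivAt (fun s => χ (y₀ + (α s).1 • w) 0 0 * φ (α s).2 1 j -
        χ (y₀ + (α s).1 • w) 1 0 * φ (α s).2 0 j) 0 t := by
    intro t ht j
    have ht11 := htr t ht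
    constructor
    · have h1 := ((hg t ht 1 1).mul (hh t ht 0 j)).sub ((hg t ht 0 1).mul (hh t ht 1 j))
      refine h1.congr_deriv ?_
      simp only [mul_apply, Fin.sum_univ_two, ht11]
      ring
    · have h1 := ((hg t ht 0 0).mul (hh t ht 1 j)).sub ((hg t ht 1 0).mul (hh t ht 0 j))
      refine h1.congr_deriv ?_
      simp only [mul_apply, Fin.sum_univ_two, ht11]
      ring
  -- a time at which the first coordinate has moved
  obtain ⟨t, ht, htne⟩ : ∃ t ∈ Ioo (-δ) δ, (α t).1 ≠ 0 := by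
    by_contra hcon
    push Not at hcon
    have h0 : (0 : ℝ) ∈ Ioo (-δ) δ := ⟨by linarith, hδ⟩
    have h1 : HasDerivAt (fun s => (α s).1) 1 0 := (hder 0 h0).fst
    have h2 : (fun s => (α s).1) =ᶠ[𝓝 0] fun _ => (0 : ℝ) := by
      filter_upwards [Ioo_mem_nhds h0.1 h0.2] with s hs using hcon s hs
    have h3 := (h2.hasDerivAt_iff.mp h1).unique (hasDerivAt_const (0 : ℝ) (0 : ℝ))
    exact one_ne_zero h3
  obtain ⟨hU, hV, -⟩ := hgood t ht
  have c1 : ∀ j, χ (y₀ + (α t).1 • w) 1 1 * φ (α t).2 0 j - χ (y₀ + (α t).1 • w) 0 1 * φ (α t).2 1 j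
      = χ y₀ 1 1 * φ x₀ 0 j - χ y₀ 0 1 * φ x₀ 1 j := by
    intro j
    have := const_of_zero hδ (fun s hs => (hq s hs j).1) ht
    simp only [hα0, zero_smul, add_zero] at this
    exact this
  have c2 : ∀ j, χ (y₀ + (α t).1 • w) 0 0 * φ (α t).2 1 j - χ (y₀ + (α t).1 • w) 1 0 * φ (α t).2 0 j
      = χ y₀ 0 0 * φ x₀ 1 j - χ y₀ 1 0 * φ x₀ 0 j := by
    intro j
    have := const_of_zero hδ (fun s hs => (hq s hs j).2) ht
    simp only [hα0, zero_smul, add_zero] at this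
    exact this
  refine ⟨(α t).2, hU, y₀ + (α t).1 • w, hV, ?_, ?_⟩
  · intro heq
    have h1 : (α t).1 • w = 0 := by
      have := congrArg (fun z => z - y₀) heq
      simpa using this
    rcases smul_eq_zero.mp h1 with h2 | h2
    · exact htne h2
    · exact hw h2
  · have hq1 : (χ (y₀ + (α t).1 • w))⁻¹ * φ (α t).2 = (χ y₀)⁻¹ * φ x₀ := by
      rw [inv_eq (k.det _ hV), inv_eq (k.det _ hy₀)]
      ext i j
      fin_cases i
      · have := c1 j
        simp only [Fin.zero_eta, mul_apply, Fin.sum_univ_two, of_apply, cons_val', cons_val_zero,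
          cons_val_one, cons_val_fin_one]
        linarith
      · have := c2 j
        simp only [Fin.mk_one, mul_apply, Fin.sum_univ_two, of_apply, cons_val', cons_val_zero,
          cons_val_one, cons_val_fin_one]
        linarith
    have uy : IsUnit (χ (y₀ + (α t).1 • w)).det := by rw [k.det _ hV]; exact isUnit_one
    have ux : IsUnit (φ x₀).det := by rw [h.det _ hx₀]; exact isUnit_one
    calc φ (α t).2 * (φ x₀)⁻¹
        = χ (y₀ + (α t).1 • w) * ((χ (y₀ + (α t).1 • w))⁻¹ * φ (α t).2) * (φ x₀)⁻¹ := by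
          rw [← Matrix.mul_assoc, mul_nonsing_inv _ uy, Matrix.one_mul]
      _ = χ (y₀ + (α t).1 • w) * (χ y₀)⁻¹ * (φ x₀ * (φ x₀)⁻¹) := by
          rw [hq1]
          simp only [Matrix.mul_assoc]
      _ = _ := by rw [mul_nonsing_inv _ ux, Matrix.mul_one]

end Pool.Agent.Q183.LE
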