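import Pool.Agent.Q183.LE.Defs

namespace Pool.Agent.Q183.LE

open Matrix Set

variable {n : ℕ}

/-- Upper unitriangular. -/
def Upp (A : Mat n) : Prop := (∀ i j, j < i → A i j = 0) ∧ ∀ i, A i i = 1

/-- Lower unitriangular. -/
def Low (A : Mat n) : Prop := (∀ i j, i < j → A i j = 0) ∧ ∀ i, A i i = 1

theorem upp_transpose {A : Mat n} : Upp Aᵀ ↔ Low A := by
  constructor
  · rintro ⟨h1, h2⟩
    exact ⟨fun i j h => h1 j i h, h2⟩
  · rintro ⟨h1, h2⟩
    exact ⟨fun i j h => h1 j i h, h2⟩

theorem Upp.blockTriangular {A : Mat n} (h : Upp A) : BlockTriangular A id := fun i j hij => h.1 i j hij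

theorem Upp.det {A : Mat n} (h : Upp A) : A.det = 1 := by
  rw [det_of_upperTriangular h.blockTriangular]
  simp [h.2]

theorem Upp.mul {A B : Mat n} (hA : Upp A) (hB : Upp B) : Upp (A * B) := by
  constructor
  · intro i j hij
    rw [mul_apply]
    refine Finset.sum_eq_zero fun k _ => ?_
    rcases lt_or_ge k i with h | h
    · rw [hA.1 i k h, zero_mul]
    · rw [hB.1 k j (lt_of_lt_of_le hij h), mul_zero]
  · intro i
    rw [mul_apply, Finset.sum_eq_single i, hA.2, hB.2, mul_one]
    · intro k _ hk
      rcases lt_or_gt_of_ne hk with h | h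
      · rw [hA.1 i k h, zero_mul]
      · rw [hB.1 k i h, mul_zero]
    · simp

theorem Upp.inv {A : Mat n} (h : Upp A) : Upp A⁻¹ := by
  have hu : IsUnit A.det := by rw [h.det]; exact isUnit_one
  haveI : Invertible A := A.invertibleOfIsUnitDet hu
  have h1 : BlockTriangular A⁻¹ id := by
    have := blockTriangular_inv_of_blockTriangular h.blockTriangular
    exact this
  refine ⟨fun i j hij => h1 hij, fun i => ?_⟩
  have h2 : (A * A⁻¹) i i = 1 := by rw [mul_nonsing_inv _ hu, one_apply_eq]
  rw [mul_apply, Finset.sum_eq_single i, h.2, one_mul] at h2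
  · exact h2
  · intro k _ hk
    rcases lt_or_gt_of_ne hk with h' | h'
    · rw [h.1 i k h', zero_mul]
    · have : A⁻¹ k i = 0 := h1 h'
      rw [this, mul_zero]
  · simp

theorem Low.mul {A B : Mat n} (hA : Low A) (hB : Low B) : Low (A * B) := by
  rw [← upp_transpose, transpose_mul]
  exact (upp_transpose.mpr hB).mul (upp_transpose.mpr hA)

theorem Low.inv {A : Mat n} (h : Low A) : Low A⁻¹ := by
  rw [← upp_transpose, transpose_nonsing_inv]
  exact (upp_transpose.mpr h).inv

theorem Low.det {A : Mat n} (h : Low A) : A.det = 1 := by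
  rw [← det_transpose]
  exact (upp_transpose.mpr h).det

/-- `L V` orthogonal implies `L = V = 1`. -/
theorem orth_lu {L U : Mat n} (hL : Low L) (hU : Upp U) (h : (L * U)ᵀ * (L * U) = 1) :
    L = 1 ∧ U = 1 := by
  have key : ∀ m : ℕ, ∀ j : Fin n, (j : ℕ) = m →
      (∀ i, L i j = (1 : Mat n) i j) ∧ ∀ i, U i j = (1 : Mat n) i j := by
    intro m
    induction m using Nat.strong_induction_on with
    | _ m ih =>
      intro j hj
      have ihL : ∀ a, a < j → ∀ i, L i a = (1 : Mat n) i a := fun a ha =>
        (ih a (by rw [← hj]; exact ha) a rfl).1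
      have ihU : ∀ a, a < j → ∀ i, U i a = (1 : Mat n) i a := fun a ha =>
        (ih a (by rw [← hj]; exact ha) a rfl).2
      have hcol : ∀ a, a < j → ∀ i, (L * U) i a = (1 : Mat n) i a := by
        intro a ha i
        rw [mul_apply, Finset.sum_eq_single a]
        · rw [hU.2, mul_one, ihL a ha]
        · intro b _ hb
          rw [ihU a ha, one_apply_ne hb, mul_zero]
        · simp
      have hrow : ∀ a, a < j → (L * U) a j = 0 := by
        intro a ha
        have h1 : ((L * U)ᵀ * (L * U)) a j = 0 := by rw [h, one_apply_ne (ne_of_lt ha)]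
        rw [mul_apply, Finset.sum_eq_single a] at h1
        · rwa [transpose_apply, hcol a ha, one_apply_eq, one_mul] at h1
        · intro b _ hb
          rw [transpose_apply, hcol a ha, one_apply_ne hb, zero_mul]
        · simp
      have hUa : ∀ a, a < j → U a j = 0 := by
        intro a ha
        have h1 := hrow a ha
        rw [mul_apply, Finset.sum_eq_single a] at h1
        · rwa [hL.2, one_mul] at h1
        · intro b _ hb
          rcases lt_or_gt_of_ne hb with h' | h'
          · rw [ihL b (h'.trans ha), one_apply_ne (ne_of_gt h'), zero_mul]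
          · rw [hL.1 a b h', zero_mul]
        · simp
      have hUj : ∀ i, U i j = (1 : Mat n) i j := by
        intro i
        rcases lt_trichotomy i j with h' | h' | h'
        · rw [hUa i h', one_apply_ne (ne_of_lt h')]
        · rw [h', hU.2, one_apply_eq]
        · rw [hU.1 i j h', one_apply_ne (ne_of_gt h')]
      have hLUj : ∀ i, (L * U) i j = L i j := by
        intro i
        rw [mul_apply, Finset.sum_eq_single j]
        · rw [hU.2, mul_one]
        · intro b _ hb
          rw [hUj, one_apply_ne hb, mul_zero]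
        · simp
      have hnorm : ∑ i, L i j ^ 2 = 1 := by
        have h1 : ((L * U)ᵀ * (L * U)) j j = 1 := by rw [h, one_apply_eq]
        rw [mul_apply] at h1
        rw [← h1]
        refine Finset.sum_congr rfl fun i _ => ?_
        rw [transpose_apply, hLUj, sq]
      refine ⟨fun i => ?_, hUj⟩
      by_cases hij : i = j
      · rw [hij, hL.2, one_apply_eq]
      · rw [one_apply_ne hij]
        have h1 := Finset.add_sum_erase Finset.univ (fun i => L i j ^ 2) (Finset.mem_univ j)
        rw [hnorm, hL.2 j] at h1
        have h2 : ∑ x ∈ Finset.univ.erase j, L x j ^ 2 = 0 := by linarith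
        have h3 := (Finset.sum_eq_zero_iff_of_nonneg (fun x _ => sq_nonneg (L x j))).mp h2 i
          (Finset.mem_erase.mpr ⟨hij, Finset.mem_univ i⟩)
        exact pow_eq_zero_iff (two_ne_zero) |>.mp h3
  constructor
  · ext i j
    exact (key j j rfl).1 i
  · ext i j
    exact (key j j rfl).2 i

end Pool.Agent.Q183.LE
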