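import Pool.Agent.Q183.LE.Ode

namespace Pool.Agent.Q183.LE

open Matrix Set Filter Topology
open scoped ContDiff

theorem exists_chart {d : ℕ} {M : Set (Mat 2)} (h : IsSubmanifold 2 d M) :
    ∃ (U : Set (EuclideanSpace ℝ (Fin d))) (φ : EuclideanSpace ℝ (Fin d) → Mat 2),
      Ch U φ ∧ U.Nonempty ∧ φ '' U ⊆ M := by
  obtain ⟨⟨A, hA⟩, hdet, hch⟩ := h
  obtain ⟨U, φ, hc, hAU, W, -, hW⟩ := hch A hA
  have hsub : φ '' U ⊆ M := by rw [hW]; exact inter_subset_left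
  refine ⟨U, φ, ⟨hc.isOpen, ?_, ?_, ?_, ?_⟩, ?_, hsub⟩
  · intro u hu i j
    exact (hc.smooth i j u hu).contDiffAt (hc.isOpen.mem_nhds hu)
  · intro u hu v hv
    refine hc.immersion u hu v fun i j => ?_
    exact congrFun (congrFun hv i) j
  · obtain ⟨ψ, -, hψ⟩ := hc.inverse
    intro a ha b hb hab
    rw [← hψ a ha, ← hψ b hb, hab]
  · intro u hu
    exact hdet _ (hsub ⟨u, hu, rfl⟩)
  · obtain ⟨u, hu, -⟩ := hAU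
    exact ⟨u, hu⟩

theorem Q_mono {n : ℕ} {X Y : Set (Mat n)} (h : X ⊆ Y) : Q X ⊆ Q Y := by
  rintro q ⟨x, hx, x', hx', rfl⟩
  exact ⟨x, h hx, x', h hx', rfl⟩

theorem TPP.mono {n : ℕ} {S T U S' T' U' : Set (Mat n)} (h : TPP S T U) (hS : S' ⊆ S)
    (hT : T' ⊆ T) (hU : U' ⊆ U) : TPP S' T' U' :=
  fun s hs t ht u hu => h s (Q_mono hS hs) t (Q_mono hT ht) u (Q_mono hU hu)

section

variable {E E' : Type} [NormedAddCommGroup E] [NormedSpace ℝ E] [FiniteDimensional ℝ E]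
  [NormedAddCommGroup E'] [NormedSpace ℝ E'] [FiniteDimensional ℝ E']

theorem one_mem_Q {U : Set E} {φ : E → Mat 2} (h : Ch U φ) (hU : U.Nonempty) :
    (1 : Mat 2) ∈ Q (φ '' U) := by
  obtain ⟨x, hx⟩ := hU
  have ux : IsUnit (φ x).det := by rw [h.det _ hx]; exact isUnit_one
  exact ⟨_, ⟨x, hx, rfl⟩, _, ⟨x, hx, rfl⟩, (mul_nonsing_inv _ ux).symm⟩

theorem pair_false {U : Set E} {φ : E → Mat 2} (h : Ch U φ) {V : Set E'} {χ : E' → Mat 2}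
    (k : Ch V χ) (hU : U.Nonempty) (hV : V.Nonempty) (hd : Module.finrank ℝ E = 2)
    (hd' : 1 ≤ Module.finrank ℝ E')
    (hs : ∀ x ∈ U, ∀ y ∈ V, LinearMap.range (rho φ x) ⊔ LinearMap.range (rho χ y) ≠ ⊤)
    (hno : ∀ q ∈ Q (φ '' U), ∀ q' ∈ Q (χ '' V), q * q' = 1 → q' = 1) : False := by
  obtain ⟨x₀, hx₀⟩ := hU
  obtain ⟨y₀, hy₀⟩ := hV
  haveI : Nontrivial E' := Module.nontrivial_of_finrank_pos (R := ℝ) (by omega)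
  obtain ⟨w, hw⟩ := exists_ne (0 : E')
  obtain ⟨x, hx, y, hy, hne, heq⟩ := ode_pair h k hx₀ hy₀ hw (by
    intro x hx y hy
    have h1 := hs x hx y hy
    have h2 : Module.finrank ℝ (LinearMap.range (rho φ x)) = 2 := by
      rw [LinearMap.finrank_range_of_inj (h.rho_inj hx), hd]
    have h3 : Module.finrank ℝ
        ((LinearMap.range (rho φ x) ⊔ LinearMap.range (rho χ y) : Submodule ℝ (Fin 3 → ℝ))) < 3 := by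
      have := Submodule.finrank_lt h1
      simpa using this
    have h4 : LinearMap.range (rho φ x) = LinearMap.range (rho φ x) ⊔ LinearMap.range (rho χ y) :=
      Submodule.eq_of_le_of_finrank_le le_sup_left (by omega)
    rw [h4]
    exact Submodule.mem_sup_right ⟨w, rfl⟩)
  have ux₀ : IsUnit (φ x₀).det := by rw [h.det _ hx₀]; exact isUnit_one
  have uy₀ : IsUnit (χ y₀).det := by rw [k.det _ hy₀]; exact isUnit_one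
  have uy : IsUnit (χ y).det := by rw [k.det _ hy]; exact isUnit_one
  have h5 := hno (φ x * (φ x₀)⁻¹) ⟨_, ⟨x, hx, rfl⟩, _, ⟨x₀, hx₀, rfl⟩, rfl⟩
    (χ y₀ * (χ y)⁻¹) ⟨_, ⟨y₀, hy₀, rfl⟩, _, ⟨y, hy, rfl⟩, rfl⟩ (by
      rw [heq]
      calc χ y * (χ y₀)⁻¹ * (χ y₀ * (χ y)⁻¹) = χ y * ((χ y₀)⁻¹ * χ y₀) * (χ y)⁻¹ := by
            simp only [Matrix.mul_assoc]
        _ = 1 := by rw [nonsing_inv_mul _ uy₀, Matrix.mul_one, mul_nonsing_inv _ uy])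
  have h6 : χ y₀ = χ y := by
    calc χ y₀ = χ y₀ * (χ y)⁻¹ * χ y := by
          rw [Matrix.mul_assoc, nonsing_inv_mul _ uy, Matrix.mul_one]
      _ = χ y := by rw [h5, Matrix.one_mul]
  exact hne (k.inj hy hy₀ h6.symm)

end

theorem not_realised_two {d₁ d₂ d₃ : ℕ} (hd : 4 ≤ d₁ + d₂ + d₃) : ¬ Realised 2 d₁ d₂ d₃ := by
  rintro ⟨M₁, M₂, M₃, m₁, m₂, m₃, htpp⟩
  obtain ⟨U₁, φ₁, h₁, n₁, s₁⟩ := exists_chart m₁
  obtain ⟨U₂, φ₂, h₂, n₂, s₂⟩ := exists_chart m₂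
  obtain ⟨U₃, φ₃, h₃, n₃, s₃⟩ := exists_chart m₃
  have ht : TPP (φ₁ '' U₁) (φ₂ '' U₂) (φ₃ '' U₃) := htpp.mono s₁ s₂ s₃
  have key : ∀ x₁ ∈ U₁, ∀ x₂ ∈ U₂, ∀ x₃ ∈ U₃, LinearMap.range (rho φ₁ x₁) ⊔
      LinearMap.range (rho φ₂ x₂) ⊔ LinearMap.range (rho φ₃ x₃) ≠ ⊤ := fun x₁ hx₁ x₂ hx₂ x₃ hx₃ =>
    sup_ne_top h₁ h₂ h₃ (by simp; omega) ht hx₁ hx₂ hx₃
  have k12 : ∀ x₁ ∈ U₁, ∀ x₂ ∈ U₂, LinearMap.range (rho φ₁ x₁) ⊔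
      LinearMap.range (rho φ₂ x₂) ≠ ⊤ := by
    intro x₁ hx₁ x₂ hx₂ h
    obtain ⟨x₃, hx₃⟩ := n₃
    refine key x₁ hx₁ x₂ hx₂ x₃ hx₃ ?_
    rw [h, top_sup_eq]
  have k13 : ∀ x₁ ∈ U₁, ∀ x₃ ∈ U₃, LinearMap.range (rho φ₁ x₁) ⊔
      LinearMap.range (rho φ₃ x₃) ≠ ⊤ := by
    intro x₁ hx₁ x₃ hx₃ h
    obtain ⟨x₂, hx₂⟩ := n₂
    refine key x₁ hx₁ x₂ hx₂ x₃ hx₃ ?_
    rw [sup_right_comm, h, top_sup_eq]
  have k23 : ∀ x₂ ∈ U₂, ∀ x₃ ∈ U₃, LinearMap.range (rho φ₂ x₂) ⊔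
      LinearMap.range (rho φ₃ x₃) ≠ ⊤ := by
    intro x₂ hx₂ x₃ hx₃ h
    obtain ⟨x₁, hx₁⟩ := n₁
    refine key x₁ hx₁ x₂ hx₂ x₃ hx₃ ?_
    rw [sup_assoc, h, sup_top_eq]
  have dim : ∀ {d : ℕ} {U : Set (EuclideanSpace ℝ (Fin d))}
      {φ : EuclideanSpace ℝ (Fin d) → Mat 2}, Ch U φ → ∀ x ∈ U,
      LinearMap.range (rho φ x) ≠ ⊤ → d ≤ 2 := by
    intro d U φ h x hx hne
    have h1 := Submodule.finrank_lt hne
    rw [LinearMap.finrank_range_of_inj (h.rho_inj hx)] at h1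
    simp at h1
    omega
  have d1 : d₁ ≤ 2 := by
    obtain ⟨x₁, hx₁⟩ := n₁
    obtain ⟨x₂, hx₂⟩ := n₂
    exact dim h₁ x₁ hx₁ fun h => k12 x₁ hx₁ x₂ hx₂ (by rw [h, top_sup_eq])
  have d2 : d₂ ≤ 2 := by
    obtain ⟨x₁, hx₁⟩ := n₁
    obtain ⟨x₂, hx₂⟩ := n₂
    exact dim h₂ x₂ hx₂ fun h => k12 x₁ hx₁ x₂ hx₂ (by rw [h, sup_top_eq])
  have d3 : d₃ ≤ 2 := by
    obtain ⟨x₁, hx₁⟩ := n₁
    obtain ⟨x₃, hx₃⟩ := n₃
    exact dim h₃ x₃ hx₃ fun h => k13 x₁ hx₁ x₃ hx₃ (by rw [h, sup_top_eq])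
  have q1 := one_mem_Q h₁ n₁
  have q2 := one_mem_Q h₂ n₂
  have q3 := one_mem_Q h₃ n₃
  have t12 : ∀ q ∈ Q (φ₁ '' U₁), ∀ q' ∈ Q (φ₂ '' U₂), q * q' = 1 → q = 1 ∧ q' = 1 := by
    intro q hq q' hq' h
    have := ht q hq q' hq' 1 q3 (by rw [h, Matrix.one_mul])
    exact ⟨this.1, this.2.1⟩
  have t13 : ∀ q ∈ Q (φ₁ '' U₁), ∀ q' ∈ Q (φ₃ '' U₃), q * q' = 1 → q = 1 ∧ q' = 1 := by
    intro q hq q' hq' h
    have := ht q hq 1 q2 q' hq' (by rw [Matrix.mul_one, h])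
    exact ⟨this.1, this.2.2⟩
  have t23 : ∀ q ∈ Q (φ₂ '' U₂), ∀ q' ∈ Q (φ₃ '' U₃), q * q' = 1 → q = 1 ∧ q' = 1 := by
    intro q hq q' hq' h
    have := ht 1 q1 q hq q' hq' (by rw [Matrix.one_mul, h])
    exact ⟨this.2.1, this.2.2⟩
  have hcases : (d₁ = 2 ∧ (1 ≤ d₂ ∨ 1 ≤ d₃)) ∨ (d₂ = 2 ∧ (1 ≤ d₁ ∨ 1 ≤ d₃)) ∨
      (d₃ = 2 ∧ (1 ≤ d₁ ∨ 1 ≤ d₂)) := by omega
  rcases hcases with ⟨e, h | h⟩ | ⟨e, h | h⟩ | ⟨e, h | h⟩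
  · exact pair_false h₁ h₂ n₁ n₂ (by simp [e]) (by simp [h]) k12
      fun q hq q' hq' hqq => (t12 q hq q' hq' hqq).2
  · exact pair_false h₁ h₃ n₁ n₃ (by simp [e]) (by simp [h]) k13
      fun q hq q' hq' hqq => (t13 q hq q' hq' hqq).2
  · exact pair_false h₂ h₁ n₂ n₁ (by simp [e]) (by simp [h])
      (fun x hx y hy => by rw [sup_comm]; exact k12 y hy x hx)
      fun q hq q' hq' hqq => (t12 q' hq' q hq (mul_eq_one_comm.mp hqq)).1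
  · exact pair_false h₂ h₃ n₂ n₃ (by simp [e]) (by simp [h]) k23
      fun q hq q' hq' hqq => (t23 q hq q' hq' hqq).2
  · exact pair_false h₃ h₁ n₃ n₁ (by simp [e]) (by simp [h])
      (fun x hx y hy => by rw [sup_comm]; exact k13 y hy x hx)
      fun q hq q' hq' hqq => (t13 q' hq' q hq (mul_eq_one_comm.mp hqq)).1
  · exact pair_false h₃ h₂ n₃ n₂ (by simp [e]) (by simp [h])
      (fun x hx y hy => by rw [sup_comm]; exact k23 y hy x hx)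
      fun q hq q' hq' hqq => (t23 q' hq' q hq (mul_eq_one_comm.mp hqq)).1

theorem lieExponent_two : lieExponent 2 = ⊤ := by
  unfold lieExponent
  rw [iInf_eq_top]
  intro d₁
  rw [iInf_eq_top]
  intro d₂
  rw [iInf_eq_top]
  intro d₃
  rw [iInf_eq_top]
  rintro ⟨hr, hd⟩
  exfalso
  refine not_realised_two ?_ hr
  unfold denom at hd
  have h1 : (3 : ℝ) < d₁ + d₂ + d₃ := by
    push_cast at hd
    linarith
  have h2 : ((3 : ℕ) : ℝ) < ((d₁ + d₂ + d₃ : ℕ) : ℝ) := by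
    push_cast
    exact h1
  have h3 : 3 < d₁ + d₂ + d₃ := by exact_mod_cast h2
  omega

end Pool.Agent.Q183.LE
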